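import Pool.Agent.Lib.MSix.NameJ
import Pool.Agent.Lib.MCmp.FinTri

/-!
# Functions with `f(x) ≤ x^(N)`
-/

set_option autoImplicit false

namespace Pool.Agent.MSix

open Filter Set TopologicalSpace
open Pool.Agent.GammaZero Pool.Agent.Mart Pool.Agent.MGen Pool.Agent.UDet Pool.Agent.MCmp
open Encodable

/-! ### branches which differ finitely -/

section

variable {w : ℕ → Bool → List Bool}

private theorem s_common {e e' : ℕ → Bool} {i : ℕ} (h : ∀ j, i ≤ j → e j = e' j) (l : ℕ) :
    ∃ r, stm w e (i + l) = stm w e i ++ r ∧ stm w e' (i + l) = stm w e' i ++ r := by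
  induction l with
  | zero => exact ⟨[], (List.append_nil _).symm, (List.append_nil _).symm⟩
  | succ l ih =>
    obtain ⟨r, h1, h2⟩ := ih
    refine ⟨r ++ w (i + l) (e (i + l)), ?_, ?_⟩
    · show stm w e (i + l) ++ w (i + l) (e (i + l)) = _
      rw [h1, List.append_assoc]
    · show stm w e' (i + l) ++ w (i + l) (e' (i + l)) = _
      rw [h2, List.append_assoc, h (i + l) (Nat.le_add_right _ _)]

theorem brn_tail (hlen : ∀ i, (w i true).length = (w i false).length)
    (hpos : ∀ i, 0 < (w i false).length) {e e' : ℕ → Bool} {i : ℕ}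
    (h : ∀ j, i ≤ j → e j = e' j) : brn w e = patch (stm w e i) (brn w e') := by
  have hle : ∀ i, i ≤ bpos w i := by
    intro i
    induction i with
    | zero => exact Nat.zero_le _
    | succ i ih =>
      rw [bpos_succ]
      have := hpos i
      omega
  funext n
  rcases Nat.lt_or_ge n (stm w e i).length with hn | hn
  · rw [patch_lt hn]
    have h1 := (Ext_iff _ _).1 (Ext_brn hlen hpos e i) n hn
    rw [List.getElem?_eq_getElem hn] at h1
    exact (Option.some.inj h1).symm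
  · rw [patch_ge hn]
    obtain ⟨r, h1, h2⟩ := s_common (w := w) h (n + 1)
    have hl : n < bpos w (i + (n + 1)) := by
      have := hle (i + (n + 1))
      omega
    have h3 := (Ext_iff _ _).1 (Ext_brn hlen hpos e (i + (n + 1))) n
      (by rw [stm_length hlen]; exact hl)
    have h4 := (Ext_iff _ _).1 (Ext_brn hlen hpos e' (i + (n + 1))) n
      (by rw [stm_length hlen]; exact hl)
    have hn' : (stm w e' i).length ≤ n := by
      rw [stm_length hlen] at hn ⊢
      exact hn
    rw [h1, List.getElem?_append_right hn, stm_length hlen] at h3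
    rw [h2, List.getElem?_append_right hn', stm_length hlen] at h4
    rw [h3] at h4
    exact Option.some.inj h4

end

/-- six reals with the same jump, cofinally -/
theorem six_main {θ : (ℕ → Bool) → (ℕ → Bool)} {t : ℕ → Bool} {M : ℕ}
    {Y : List Bool → ℕ → Bool → Prop} (hY : Name Y)
    (hYd : DI {orc (jmp (M + 1) t)} (fun q : List Bool × ℕ × Bool => Y q.1 q.2.1 q.2.2))
    (ht : ∀ G, Gen (jmp M t) G → ∀ i, ∃ m, Y (pre G m) i (θ (bjoin t G) i)) (hNC : NC Y)
    (hp : ∀ (ρ : List Bool) (G : ℕ → Bool), TR (θ (bjoin t (patch ρ G))) (θ (bjoin t G)))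
    (b : ℕ → Bool) : ∃ c, TR b c ∧ ∃ a : ℕ → ℕ → Bool,
      (∀ j < 6, TR t (a j) ∧ Eqv (jmp (M + 1) (a j)) c) ∧
        ∀ W, (∀ j < 6, TR (θ (a j)) W) → TR c W := by
  rw [jmp_succ] at hYd
  obtain ⟨w, hB, hw⟩ := blocks_exist hY hYd hNC
  rw [← jmp_succ] at hw
  have hc : Continuous (fun e => θ (bjoin t (brn w e))) :=
    psi_cont (f := fun G => θ (bjoin t G)) hY hB ht
  have hi : Function.Injective (fun e => θ (bjoin t (brn w e))) :=
    psi_inj (f := fun G => θ (bjoin t G)) hY hB ht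
  have hE : ∀ (σ : List Bool) (G : ℕ → Bool), TR ((fun e => θ (bjoin t (brn w e))) (patch σ G))
      ((fun e => θ (bjoin t (brn w e))) G) := by
    intro σ G
    show TR (θ (bjoin t (brn w (patch σ G)))) (θ (bjoin t (brn w G)))
    rw [brn_tail hB.len hB.pos (e := patch σ G) (e' := G) (i := σ.length)
      (fun j hj => patch_ge hj)]
    exact hp _ _
  obtain ⟨δ, h1, h2, h3⟩ := core6 hc hi hE (bjoin (jmp (M + 1) t) b)
  have h0 : TR (bjoin (jmp (M + 1) t) b) (δ 0) := h2 0 (by omega)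
  refine ⟨δ 0, (tr_bjoin_right _ _).trans h0, fun j => bjoin t (brn w (δ j)), fun j hj => ?_, h3⟩
  have h4 := jmp_branch hY hB hw ((tr_bjoin_left _ _).trans h0) (h1 j hj 0 (by omega))
  exact ⟨tr_bjoin_left _ _, h4.1, (h1 0 (by omega) j hj).trans h4.2⟩

/-- the conclusion at `c` -/
def Sx (φ : (ℕ → Bool) → (ℕ → Bool)) (M : ℕ) (b c : ℕ → Bool) : Prop :=
  ∃ a : ℕ → ℕ → Bool, (∀ j < 6, TR b (a j) ∧ Eqv (jmp M (a j)) c) ∧
    TR c (joinBelow 6 fun j => φ (a j))

theorem sx_iff {φ : (ℕ → Bool) → (ℕ → Bool)} {M : ℕ} {b c : ℕ → Bool} :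
    Sx φ M b c ↔ ∃ e : ℕ, (∀ j < 6, TR b (tmF (lget e j) c) ∧
      Eqv (jmp M (tmF (lget e j) c)) c) ∧ TR c (joinBelow 6 fun j => φ (tmF (lget e j) c)) := by
  constructor
  · rintro ⟨a, h1, h2⟩
    have h3 : ∀ j, ∃ e, j < 6 → tmF e c = a j := by
      intro j
      by_cases hj : j < 6
      · obtain ⟨e, he⟩ := exists_idx ((tr_jmp (a j) M).trans (h1 j hj).2.1)
        exact ⟨e, fun _ => tmF_eq he⟩
      · exact ⟨0, fun h => absurd h hj⟩
    choose e he using h3
    have h4 : ∀ j < 6, tmF (lget (encode ((List.range 6).map e)) j) c = a j := by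
      intro j hj
      rw [lget_encode, List.getElem?_map, List.getElem?_range hj]
      exact he j hj
    refine ⟨encode ((List.range 6).map e), fun j hj => ?_, ?_⟩
    · rw [h4 j hj]
      exact h1 j hj
    · refine h2.trans (joinBelow_tr fun j hj => ?_)
      have h5 := tr_joinBelow hj fun j => φ (tmF (lget (encode ((List.range 6).map e)) j) c)
      rw [h4 j hj] at h5
      exact h5
  · rintro ⟨e, h1, h2⟩
    exact ⟨fun j => tmF (lget e j) c, h1, h2⟩

theorem measurable_sx {φ : (ℕ → Bool) → (ℕ → Bool)} (hφ : Measurable φ) (M : ℕ)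
    (b : ℕ → Bool) : MeasurableSet {c | Sx φ M b c} := by
  have h1 : {c | Sx φ M b c} = ⋃ e : ℕ, ((⋂ j : ℕ, {c | j < 6 → TR b (tmF (lget e j) c) ∧
      Eqv (jmp M (tmF (lget e j) c)) c}) ∩
        {c | TR c (joinBelow 6 fun j => φ (tmF (lget e j) c))}) := by
    ext c
    simp only [mem_ofPred_eq, sx_iff, mem_iUnion, mem_inter_iff, mem_iInter]
  rw [h1]
  refine MeasurableSet.iUnion fun e => MeasurableSet.inter (MeasurableSet.iInter fun j => ?_) ?_
  · by_cases hj : j < 6
    · have h2 : {c : ℕ → Bool | j < 6 → TR b (tmF (lget e j) c) ∧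
          Eqv (jmp M (tmF (lget e j) c)) c} = {c | TR b (tmF (lget e j) c)} ∩
          ({c | TR (jmp M (tmF (lget e j) c)) c} ∩ {c | TR c (jmp M (tmF (lget e j) c))}) := by
        ext c
        constructor
        · intro h; exact h hj
        · intro h _; exact h
      rw [h2]
      have h3 : Measurable fun c => jmp M (tmF (lget e j) c) :=
        (measurable_jmp M).comp (measurable_tmF _)
      exact (measurable_TR_comp measurable_const (measurable_tmF _)).inter
        ((measurable_TR_comp h3 measurable_id).inter (measurable_TR_comp measurable_id h3))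
    · have h2 : {c : ℕ → Bool | j < 6 → TR b (tmF (lget e j) c) ∧
          Eqv (jmp M (tmF (lget e j) c)) c} = univ := by
        ext c
        exact ⟨fun _ => mem_univ c, fun _ h => absurd h hj⟩
      rw [h2]
      exact MeasurableSet.univ
  · exact measurable_TR_comp measurable_id
      (measurable_joinBelow 6 fun j => hφ.comp (measurable_tmF _))

theorem sx_inv {φ : (ℕ → Bool) → (ℕ → Bool)} {M : ℕ} {b c c' : ℕ → Bool} (h : TR c c')
    (h' : TR c' c) (hs : Sx φ M b c) : Sx φ M b c' := by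
  obtain ⟨a, h1, h2⟩ := hs
  exact ⟨a, fun j hj => ⟨(h1 j hj).1, (h1 j hj).2.trans ⟨h, h'⟩⟩, h'.trans h2⟩

/-- **six degrees**: `φ (A) ≤ A^(n+1)` on a cone, `φ` not constant on a cone -/
theorem six_dich {φ : (ℕ → Bool) → (ℕ → Bool)} (hφ : Measurable φ)
    (hinv : ∀ A B, Eqv A B → TR (φ A) (φ B)) {n : ℕ} {C : ℕ → Bool}
    (hle : ∀ A, TR C A → TR (φ A) (jmp (n + 1) A)) (hnc : ¬ ConstCone φ) {M : ℕ} (hM : n ≤ M)
    (b : ℕ → Bool) : ∃ C', ∀ c, TR C' c → Sx φ (M + 1) b c := by
  -- uniformization on a pointed tree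
  obtain ⟨e, T, hT⟩ := exists_pointed (A := fun e => {A | Idx (jmp (n + 1) A) e (φ A)})
    (fun e => ((measurable_jmp (n + 1)).prodMk hφ) (measurable_idx e)) (fun C₀ => by
      refine ⟨bjoin C₀ C, tr_bjoin_left _ _, ?_⟩
      exact exists_idx (hle _ (tr_bjoin_right _ _)))
  have hans : ∀ t, TR T t → ∀ G, Eqv (ans T (bjoin t G)) (bjoin t G) := fun t ht G =>
    ⟨TR_answer 1 (ht.trans (tr_bjoin_left _ _)) (TR.refl _), (hT _).1⟩
  obtain ⟨p, hp⟩ := name_val (χ := fun u => jmp (n + 1) (ans T u)) (θ := fun u => φ (ans T u))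
    (n := n) (e := e) (sig_jmp (continuous_ans T) n) (fun u => (hT u).2)
  -- the two cases
  by_cases hcase : ∃ t : ℕ → Bool, TR (bjoin b (bjoin T p)) t ∧
      ∃ Y : List Bool → ℕ → Bool → Prop, Name Y ∧
        DI {orc (jmp (n + 1) t)} (fun q : List Bool × ℕ × Bool => Y q.1 q.2.1 q.2.2) ∧
        (∀ G, Gen (jmp n t) G → ∀ i, ∃ m, Y (pre G m) i (φ (ans T (bjoin t G)) i)) ∧ NC Y
  · obtain ⟨t, ht, Y, hY, hYD, hYt, hNC⟩ := hcase
    have hTt : TR T t := (tr_bjoin_left T p).trans ((tr_bjoin_right b _).trans ht)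
    rcases cone_dichotomy (measurable_sx hφ (M + 1) b) (fun A B hAB hBA hA =>
      sx_inv hAB hBA hA) with h | ⟨B, hB⟩
    · exact h
    · exfalso
      obtain ⟨c, hc, a, ha1, ha2⟩ := six_main (θ := fun u => φ (ans T u)) hY
        (di_tr hYD (jmp_tr_jmp t (Nat.succ_le_succ hM)))
        (fun G hG => hYt G (hG.mono (jmp_tr_jmp t hM))) hNC (fun ρ G => by
          refine hinv _ _ ((hans t hTt _).trans (Eqv.trans ⟨?_, ?_⟩ (hans t hTt G).symm))
          · exact bjoin_tr (tr_bjoin_left t G) ((patch_tr ρ G).trans (tr_bjoin_right t G))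
          · exact bjoin_tr (tr_bjoin_left t _) ((tr_patch ρ G).trans (tr_bjoin_right t _))) B
      refine hB c hc ⟨a, fun j hj => ⟨((tr_bjoin_left b _).trans ht).trans (ha1 j hj).1,
        (ha1 j hj).2⟩, ha2 _ fun j hj => ?_⟩
      refine TR.trans ?_ (tr_joinBelow hj fun j => φ (a j))
      refine hinv _ _ ⟨TR_answer 1 (hTt.trans (ha1 j hj).1) (TR.refl _), (hT _).1⟩
  · exfalso
    have hgen : ∀ t, TR (bjoin b (bjoin T p)) t → ∀ G H, Gen (jmp n t) G → Gen (jmp n t) H →
        TR (φ (bjoin t G)) (φ (bjoin t H)) := by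
      intro t ht G H hG hH
      have hTt : TR T t := (tr_bjoin_left T p).trans ((tr_bjoin_right b _).trans ht)
      have hpt : TR p t := (tr_bjoin_right T p).trans ((tr_bjoin_right b _).trans ht)
      obtain ⟨Y, hY, hYD, hYt⟩ := hp t hpt
      have hNC : ¬ NC Y := fun hNC => hcase ⟨t, ht, Y, hY, hYD, hYt, hNC⟩
      have h1 : TR (φ (ans T (bjoin t G))) (φ (ans T (bjoin t H))) := by
        refine const_of_not_nc hY (f := fun G => φ (ans T (bjoin t G))) hYt ?_ hNC hG hH
        intro σ K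
        have h3 : Eqv (bjoin t (patch σ K)) (bjoin t K) :=
          ⟨bjoin_tr (tr_bjoin_left t K) ((patch_tr σ K).trans (tr_bjoin_right t K)),
            bjoin_tr (tr_bjoin_left t _) ((tr_patch σ K).trans (tr_bjoin_right t _))⟩
        have h4 : Eqv (ans T (bjoin t (patch σ K))) (ans T (bjoin t K)) :=
          (hans t hTt _).trans (h3.trans (hans t hTt K).symm)
        exact ⟨hinv _ _ h4, hinv _ _ h4.symm⟩
      exact (hinv _ _ (hans t hTt G).symm).trans (h1.trans (hinv _ _ (hans t hTt H)))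
    obtain ⟨D, hD⟩ := const_of_generic (z := bjoin b (bjoin T p)) hφ hinv (fun B hB => by
      obtain ⟨G₀, hG₀⟩ := (dense_of_mem_residual (gen_residual (jmp n B))).nonempty
      refine ⟨φ (bjoin B G₀), (gen_residual (jmp n B)).mono fun G hG => ?_⟩
      exact ⟨hgen B hB G G₀ hG hG₀, hgen B hB G₀ G hG₀ hG⟩)
    rcases cone_eqv hφ hinv D with ⟨B, hB⟩ | ⟨B, hB⟩
    · exact hnc ⟨B, D, hB⟩
    · obtain ⟨A, hA1, hA2⟩ := hD B
      exact hB A hA1 (by rw [hA2]; exact Eqv.refl _)

end Pool.Agent.MSix
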