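import Pool.Agent.Lib.MSix.App
import Pool.Agent.Lib.MGen.Psi2

/-!
# Regressive functions: `f(x) ≤ x`
-/

set_option autoImplicit false

namespace Pool.Agent.MSix

open Filter Set TopologicalSpace
open Pool.Agent.GammaZero Pool.Agent.Mart Pool.Agent.MGen Pool.Agent.UDet Pool.Agent.MCmp
open Encodable

theorem six_main0 {θ : (ℕ → Bool) → (ℕ → Bool)} {t : ℕ → Bool}
    {Y : List Bool → ℕ → Bool → Prop} (hY : Name Y)
    (hYd : DI {orc t} (fun q : List Bool × ℕ × Bool => Y q.1 q.2.1 q.2.2))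
    (ht : ∀ G i, ∃ m, Y (pre G m) i (θ (bjoin t G) i)) (hNC : NC Y)
    (hp : ∀ (ρ : List Bool) (G : ℕ → Bool), TR (θ (bjoin t (patch ρ G))) (θ (bjoin t G)))
    (b : ℕ → Bool) : ∃ c, TR b c ∧ ∃ a : ℕ → ℕ → Bool,
      (∀ j < 6, TR t (a j) ∧ Eqv (a j) c) ∧ ∀ W, (∀ j < 6, TR (θ (a j)) W) → TR c W := by
  obtain ⟨w, hB, hw⟩ := blocks_exist2 (X := t) hY hYd hNC (D := fun _ _ => True)
    ⟨fun _ _ _ _ _ => trivial, fun _ ρ => ⟨ρ, List.prefix_refl ρ, trivial⟩⟩
    ⟨fun _ => 1, CI.const 1, fun _ _ => rfl, fun _ h => absurd trivial h⟩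
  have hc : Continuous (fun e => θ (bjoin t (brn w e))) :=
    psi2_cont (f := fun G => θ (bjoin t G)) hY hB fun e i => ht _ i
  have hi : Function.Injective (fun e => θ (bjoin t (brn w e))) :=
    psi2_inj (f := fun G => θ (bjoin t G)) hY hB fun e i => ht _ i
  have hE : ∀ (σ : List Bool) (G : ℕ → Bool), TR ((fun e => θ (bjoin t (brn w e))) (patch σ G))
      ((fun e => θ (bjoin t (brn w e))) G) := by
    intro σ G
    show TR (θ (bjoin t (brn w (patch σ G)))) (θ (bjoin t (brn w G)))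
    rw [brn_tail hB.len hB.pos (e := patch σ G) (e' := G) (i := σ.length)
      (fun j hj => patch_ge hj)]
    exact hp _ _
  obtain ⟨δ, h1, h2, h3⟩ := core6 hc hi hE (bjoin t b)
  have h0 : TR (bjoin t b) (δ 0) := h2 0 (by omega)
  have htc : TR t (δ 0) := (tr_bjoin_left _ _).trans h0
  refine ⟨δ 0, (tr_bjoin_right _ _).trans h0, fun j => bjoin t (brn w (δ j)), fun j hj => ?_, h3⟩
  refine ⟨tr_bjoin_left _ _, bjoin_tr htc (brn_tr (ci_tr hw htc) (h1 j hj 0 (by omega))), ?_⟩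
  exact (h1 0 (by omega) j hj).trans (tr_brn hB.len hB.pos (blk2_ne hY hB)
    (ci_tr hw (tr_bjoin_left _ _)) (tr_bjoin_right _ _))

/-- the name for a function computed from `ans T` -/
theorem name0 {θ : (ℕ → Bool) → (ℕ → Bool)} {T : ℕ → Bool} {e : ℕ}
    (hθ : ∀ A, Idx (ans T A) e (θ A)) {t : ℕ → Bool} (hTt : TR T t) :
    ∃ Y : List Bool → ℕ → Bool → Prop, Name Y ∧
      DI {orc t} (fun q : List Bool × ℕ × Bool => Y q.1 q.2.1 q.2.2) ∧
      ∀ G i, ∃ m, Y (pre G m) i (θ (bjoin t G) i) := by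
  have hans : ∀ (ρ : List Bool) (G : ℕ → Bool), Mart.Ext ρ G → ∀ j < ρ.length,
      ans T (bjoin t G) j = ans T (bjoin t (ext ρ)) j := by
    intro ρ G hG j hj
    unfold ans
    congr 2
    rw [pre_eq_iff]
    intro k hk
    unfold bjoin
    split_ifs
    · rfl
    · have h1 := (Ext_iff ρ G).1 hG (k / 2) (by omega)
      have h2 := (Ext_iff ρ (ext ρ)).1 (Ext_ext ρ) (k / 2) (by omega)
      rw [h1] at h2
      exact Option.some.inj h2
  let Y : List Bool → ℕ → Bool → Prop := fun ρ i b =>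
    ∃ s < ρ.length + 1, U (ans T (bjoin t (ext ρ))) e i s b.toNat
  have hmono : ∀ (ρ τ : List Bool) (i : ℕ) (b : Bool), ρ <+: τ → Y ρ i b → Y τ i b := by
    rintro ρ τ i b hρ ⟨s, hs, h⟩
    refine ⟨s, lt_of_lt_of_le hs (Nat.succ_le_succ hρ.length_le), ?_⟩
    exact (U_ext fun j hj => hans ρ (ext τ) (Ext_mono hρ (Ext_ext τ)) j (by omega)).2 h
  have htruth : ∀ G i, ∃ m, Y (pre G m) i (θ (bjoin t G) i) := by
    intro G i
    obtain ⟨s, hs⟩ := hθ (bjoin t G) i
    refine ⟨s, s, by rw [pre_length]; exact Nat.lt_succ_self s, ?_⟩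
    refine (U_ext fun j hj => ?_).1 hs
    exact hans (pre G s) G (Ext_pre G s) j (by rw [pre_length]; exact hj)
  refine ⟨Y, ⟨hmono, ?_, ?_⟩, ?_, htruth⟩
  · rintro ρ i ⟨⟨s, _, h1⟩, s', _, h2⟩
    exact absurd (h1.unique h2) (by decide)
  · intro ρ i
    obtain ⟨m, hm⟩ := htruth (ext ρ) i
    exact ⟨pre (ext ρ) (max m ρ.length), _, prefix_pre (Ext_ext ρ) (le_max_right _ _),
      hmono _ _ _ _ (pre_prefix _ (le_max_left _ _)) hm⟩
  · have hF0 : CI {orc t} (fun q : List Bool × ℕ => (bjoin t (ext q.1) q.2).toNat) := by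
      have hd : CI {orc t} (fun q : List Bool × ℕ => q.2 / 2) :=
        CI.div (CI.of_computable Computable.snd) (CI.const 2)
      have h2 : Computable (fun q : List Bool × ℕ => ((q.1[q.2 / 2]?).getD false).toNat) := by
        have h3 : Computable fun q : List Bool × ℕ => q.2 / 2 :=
          Primrec.nat_div.to_comp.comp Computable.snd (Computable.const 2)
        exact (Primrec.dom_finite Bool.toNat).to_comp.comp (Computable.option_getD
          (Computable.list_getElem?.comp Computable.fst h3) (Computable.const false))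
      refine (CI.ite (DI.eq (CI.mod (CI.of_computable Computable.snd) (CI.const 2)) (CI.const 0))
        (ci_orc_comp (TR.refl t) hd) (CI.of_computable h2)).congr fun q => ?_
      unfold bjoin
      split_ifs <;> rfl
    have hF : CI {orc t} (fun q : List Bool × ℕ => (ans T (bjoin t (ext q.1)) q.2).toNat) := by
      have h3 : CI {orc t} (fun q : List Bool × ℕ => encode (pre (bjoin t (ext q.1)) (q.2 + 1))) :=
        (fam_pre (F := fun ρ => bjoin t (ext ρ)) hF0).comp_computable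
          (g := fun q : List Bool × ℕ => (q.1, q.2 + 1))
          (Computable.fst.pair (Computable.succ.comp Computable.snd))
      exact ci_orc_comp hTt h3
    have h3 : DI {orc t} (fun r : (List Bool × ℕ × Bool) × ℕ =>
        U (ans T (bjoin t (ext r.1.1))) e r.1.2.1 r.2 r.1.2.2.toNat) :=
      di_UF (F := fun ρ => ans T (bjoin t (ext ρ))) hF (Computable.fst.comp Computable.fst)
        (CI.const e)
        (CI.of_computable (Computable.fst.comp (Computable.snd.comp Computable.fst)))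
        (CI.of_computable Computable.snd)
        (CI.of_computable ((Primrec.dom_finite Bool.toNat).to_comp.comp
          (Computable.snd.comp (Computable.snd.comp Computable.fst))))
    have h4 : CI {orc t} (fun q : List Bool × ℕ × Bool => q.1.length + 1) :=
      CI.add (CI.of_computable (Computable.list_length.comp Computable.fst)) (CI.const 1)
    exact DI.bex h3 h4

/-- the case `f(x) ≤ x` (Slaman, Steel) -/
theorem six_dich0 {φ : (ℕ → Bool) → (ℕ → Bool)} (hφ : Measurable φ)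
    (hinv : ∀ A B, Eqv A B → TR (φ A) (φ B)) {C : ℕ → Bool}
    (hle : ∀ A, TR C A → TR (φ A) A) (hnc : ¬ ConstCone φ)
    (b : ℕ → Bool) : ∃ C', ∀ c, TR C' c → Sx φ 0 b c := by
  obtain ⟨e, T, hT⟩ := exists_pointed (A := fun e => {A | Idx A e (φ A)})
    (fun e => (measurable_id.prodMk hφ) (measurable_idx e)) (fun C₀ => by
      refine ⟨bjoin C₀ C, tr_bjoin_left _ _, ?_⟩
      exact exists_idx (hle _ (tr_bjoin_right _ _)))
  have hans : ∀ t, TR T t → ∀ G, Eqv (ans T (bjoin t G)) (bjoin t G) := fun t ht G =>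
    ⟨TR_answer 1 (ht.trans (tr_bjoin_left _ _)) (TR.refl _), (hT _).1⟩
  have hp := fun t => name0 (θ := fun u => φ (ans T u)) (T := T) (e := e) (fun u => (hT u).2)
    (t := t)
  by_cases hcase : ∃ t : ℕ → Bool, TR (bjoin b T) t ∧
      ∃ Y : List Bool → ℕ → Bool → Prop, Name Y ∧
        DI {orc t} (fun q : List Bool × ℕ × Bool => Y q.1 q.2.1 q.2.2) ∧
        (∀ G i, ∃ m, Y (pre G m) i (φ (ans T (bjoin t G)) i)) ∧ NC Y
  · obtain ⟨t, ht, Y, hY, hYD, hYt, hNC⟩ := hcase
    have hTt : TR T t := (tr_bjoin_right b T).trans ht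
    rcases cone_dichotomy (measurable_sx hφ 0 b) (fun A B hAB hBA hA =>
      sx_inv hAB hBA hA) with h | ⟨B, hB⟩
    · exact h
    · exfalso
      obtain ⟨c, hc, a, ha1, ha2⟩ := six_main0 (θ := fun u => φ (ans T u)) hY hYD hYt hNC
        (fun ρ G => by
          refine hinv _ _ ((hans t hTt _).trans (Eqv.trans ⟨?_, ?_⟩ (hans t hTt G).symm))
          · exact bjoin_tr (tr_bjoin_left t G) ((patch_tr ρ G).trans (tr_bjoin_right t G))
          · exact bjoin_tr (tr_bjoin_left t _) ((tr_patch ρ G).trans (tr_bjoin_right t _))) B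
      refine hB c hc ⟨a, fun j hj => ⟨((tr_bjoin_left b _).trans ht).trans (ha1 j hj).1,
        (ha1 j hj).2⟩, ha2 _ fun j hj => ?_⟩
      refine TR.trans ?_ (tr_joinBelow hj fun j => φ (a j))
      exact hinv _ _ ⟨TR_answer 1 (hTt.trans (ha1 j hj).1) (TR.refl _), (hT _).1⟩
  · exfalso
    have hgen : ∀ t, TR (bjoin b T) t → ∀ G H, Gen t G → Gen t H →
        TR (φ (bjoin t G)) (φ (bjoin t H)) := by
      intro t ht G H hG hH
      have hTt : TR T t := (tr_bjoin_right b T).trans ht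
      obtain ⟨Y, hY, hYD, hYt⟩ := hp t hTt
      have hNC : ¬ NC Y := fun hNC => hcase ⟨t, ht, Y, hY, hYD, hYt, hNC⟩
      have h1 : TR (φ (ans T (bjoin t G))) (φ (ans T (bjoin t H))) := by
        refine const_of_not_nc hY (f := fun G => φ (ans T (bjoin t G))) (fun G _ => hYt G) ?_ hNC
          hG hH
        intro σ K
        have h3 : Eqv (bjoin t (patch σ K)) (bjoin t K) :=
          ⟨bjoin_tr (tr_bjoin_left t K) ((patch_tr σ K).trans (tr_bjoin_right t K)),
            bjoin_tr (tr_bjoin_left t _) ((tr_patch σ K).trans (tr_bjoin_right t _))⟩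
        have h4 : Eqv (ans T (bjoin t (patch σ K))) (ans T (bjoin t K)) :=
          (hans t hTt _).trans (h3.trans (hans t hTt K).symm)
        exact ⟨hinv _ _ h4, hinv _ _ h4.symm⟩
      exact (hinv _ _ (hans t hTt G).symm).trans (h1.trans (hinv _ _ (hans t hTt H)))
    obtain ⟨D, hD⟩ := const_of_generic (z := bjoin b T) hφ hinv (fun B hB => by
      obtain ⟨G₀, hG₀⟩ := (dense_of_mem_residual (gen_residual B)).nonempty
      refine ⟨φ (bjoin B G₀), (gen_residual B).mono fun G hG => ?_⟩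
      exact ⟨hgen B hB G G₀ hG hG₀, hgen B hB G₀ G hG₀ hG⟩)
    rcases cone_eqv hφ hinv D with ⟨B, hB⟩ | ⟨B, hB⟩
    · exact hnc ⟨B, D, hB⟩
    · obtain ⟨A, hA1, hA2⟩ := hD B
      exact hB A hA1 (by rw [hA2]; exact Eqv.refl _)

/-- **six degrees** for `f(x) ≤ x^(N)` and `M ≥ N` -/
theorem six_all {φ : (ℕ → Bool) → (ℕ → Bool)} (hφ : Measurable φ)
    (hinv : ∀ A B, Eqv A B → TR (φ A) (φ B)) {N : ℕ} {C : ℕ → Bool}
    (hle : ∀ A, TR C A → TR (φ A) (jmp N A)) (hnc : ¬ ConstCone φ) {M : ℕ} (hM : N ≤ M)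
    (b : ℕ → Bool) : ∃ C', ∀ c, TR C' c → Sx φ M b c := by
  rcases Nat.eq_zero_or_pos M with h0 | h0
  · subst h0
    have hN : N = 0 := Nat.le_zero.1 hM
    subst hN
    exact six_dich0 hφ hinv hle hnc b
  · obtain ⟨M, rfl⟩ : ∃ M', M = M' + 1 := ⟨M - 1, by omega⟩
    obtain ⟨n, hn, hnM⟩ : ∃ n, N ≤ n + 1 ∧ n ≤ M := ⟨N - 1, by omega, by omega⟩
    exact six_dich hφ hinv (n := n) (C := C)
      (fun A hA => (hle A hA).trans (jmp_tr_jmp A hn)) hnc hnM b

end Pool.Agent.MSix
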