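import Pool.Agent.Lib.MSix.Seq

/-!
# Six reals of the same degree whose values compute it
-/

set_option autoImplicit false

namespace Pool.Agent.MSix

open Pool.Agent.GammaZero Pool.Agent.Mart Encodable

/-- the strings of the real `j` at the even stages -/
def dl6 (s : ℕ → Grp × Grp) (j n : ℕ) : List Bool :=
  if j < 3 then (s (2 * n)).1.cur j else (s (2 * n)).2.cur (j - 3)

/-- the six reals -/
def rl6 (s : ℕ → Grp × Grp) (j : ℕ) : ℕ → Bool := lim (dl6 s j)

section

variable {F : (ℕ → Bool) → (ℕ → Bool)} {s : ℕ → Grp × Grp} {zz bb : ℕ → Bool} {u v : ℕ → ℕ}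
  {β : ℕ → ℕ → List Bool} (hS : ∀ i, Stp F (s i) (zz i) (bb i) (s (i + 1)) (u i) (v i) (β i))

include hS

theorem grow_a (i c : ℕ) : (s i).1.cur c <+: (s i).1.st c ++ fl (β i c) ∧
    (s i).1.st c ++ fl (β i c) <+: (s (i + 1)).2.cur c ∧
    ((s i).1.st c ++ fl (β i c)).length + 2 ≤ ((s (i + 1)).2.cur c).length := by
  have h1 : (s (i + 1)).2.cur c = (s i).1.st c ++ fl (β i c) ++
      (rp (msg (TT (s i).1 (s (i + 1)).1 (β i)) (bb i)) ++ fl (s (i + 1)).2.g) := by
    unfold Grp.cur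
    rw [(hS i).hst c]
    simp only [List.append_assoc]
  refine ⟨app_fl_prefix _ ((hS i).hβ c), ?_, ?_⟩
  · rw [h1]
    exact List.prefix_append _ _
  · rw [h1, List.length_append (as := (s i).1.st c ++ fl (β i c)), List.length_append (as := rp _),
      rp_length]
    omega

theorem grow_p (i c : ℕ) : (s i).2.cur c <+: (s (i + 1)).1.cur c := by
  unfold Grp.cur
  rw [(hS i).hst']
  exact app_fl_prefix _ (hS i).hg'

theorem dl6_step (j n : ℕ) : dl6 s j n <+: dl6 s j (n + 1) ∧
    (dl6 s j n).length + 2 ≤ (dl6 s j (n + 1)).length := by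
  have e : 2 * (n + 1) = 2 * n + 1 + 1 := by ring
  unfold dl6
  rw [e]
  by_cases hj : j < 3
  · rw [if_pos hj, if_pos hj]
    obtain ⟨a1, a2, a3⟩ := grow_a hS (2 * n) j
    have a4 := grow_p hS (2 * n + 1) j
    have := a1.length_le
    have := a4.length_le
    exact ⟨(a1.trans a2).trans a4, by omega⟩
  · rw [if_neg hj, if_neg hj]
    have a4 := grow_p hS (2 * n) (j - 3)
    obtain ⟨a1, a2, a3⟩ := grow_a hS (2 * n + 1) (j - 3)
    have := a1.length_le
    have := a4.length_le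
    exact ⟨a4.trans (a1.trans a2), by omega⟩

theorem le_dl6 (j n : ℕ) : 2 * n ≤ (dl6 s j n).length := by
  induction n with
  | zero => exact Nat.zero_le _
  | succ n ih =>
    have := (dl6_step hS j n).2
    omega

theorem ext_rl6 (j n : ℕ) : Mart.Ext (dl6 s j n) (rl6 s j) :=
  Ext_lim (dl6 s j) (fun n => (dl6_step hS j n).1) (fun n => by
    have := (dl6_step hS j n).2
    omega) n

theorem even_a (n c : ℕ) (hc : c < 3) : Mart.Ext ((s (2 * n)).1.cur c) (rl6 s c) := by
  have h1 := ext_rl6 hS c n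
  unfold dl6 at h1
  rw [if_pos hc] at h1
  exact h1

theorem even_p (n c : ℕ) : Mart.Ext ((s (2 * n)).2.cur c) (rl6 s (3 + c)) := by
  have h1 := ext_rl6 hS (3 + c) n
  unfold dl6 at h1
  rw [if_neg (by omega), Nat.add_sub_cancel_left] at h1
  exact h1

theorem ext_a (i c : ℕ) (hc : c < 3) :
    Mart.Ext ((s i).1.cur c) (rl6 s (3 * (i % 2) + c)) := by
  rcases Nat.even_or_odd' i with ⟨n, rfl | rfl⟩
  · have h : 3 * (2 * n % 2) + c = c := by omega
    rw [h]
    exact even_a hS n c hc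
  · have h : 3 * ((2 * n + 1) % 2) + c = 3 + c := by omega
    rw [h]
    obtain ⟨a1, a2, -⟩ := grow_a hS (2 * n + 1) c
    exact Ext_mono (a1.trans a2) (even_p hS (n + 1) c)

theorem ext_p (i c : ℕ) (hc : c < 3) :
    Mart.Ext ((s i).2.cur c) (rl6 s (3 * ((i + 1) % 2) + c)) := by
  rcases Nat.even_or_odd' i with ⟨n, rfl | rfl⟩
  · have h : 3 * ((2 * n + 1) % 2) + c = 3 + c := by omega
    rw [h]
    exact even_p hS n c
  · have h : 3 * ((2 * n + 1 + 1) % 2) + c = c := by omega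
    rw [h]
    exact Ext_mono (grow_p hS (2 * n + 1) c) (even_a hS (n + 1) c hc)

theorem ext_b (i c : ℕ) (hc : c < 3) :
    Mart.Ext ((s i).1.st c ++ fl (β i c)) (rl6 s (3 * (i % 2) + c)) := by
  have h1 := ext_p hS (i + 1) c hc
  have h : 3 * ((i + 1 + 1) % 2) + c = 3 * (i % 2) + c := by omega
  rw [h] at h1
  exact Ext_mono (grow_a hS i c).2.1 h1

theorem len_a (i c : ℕ) (hc : c < 3) : 2 * (i / 2) ≤ ((s i).1.cur c).length := by
  rcases Nat.even_or_odd' i with ⟨n, rfl | rfl⟩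
  · have h1 := le_dl6 hS c n
    unfold dl6 at h1
    rw [if_pos hc] at h1
    have h : 2 * (2 * n / 2) = 2 * n := by omega
    rw [h]
    exact h1
  · have h1 := le_dl6 hS (3 + c) n
    unfold dl6 at h1
    rw [if_neg (by omega), Nat.add_sub_cancel_left] at h1
    have h : 2 * ((2 * n + 1) / 2) = 2 * n := by omega
    rw [h]
    exact h1.trans (grow_p hS (2 * n) c).length_le

theorem len_p_odd (n c : ℕ) (hc : c < 3) :
    2 * n + 2 ≤ ((s (2 * n + 1)).2.cur c).length := by
  have h1 := le_dl6 hS c n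
  unfold dl6 at h1
  rw [if_pos hc] at h1
  obtain ⟨a1, a2, a3⟩ := grow_a hS (2 * n) c
  have := a1.length_le
  omega

/-- the strings of the reports -/
theorem ext_T (i j : ℕ) (hj : j < 6) :
    Mart.Ext (TT (s i).1 (s (i + 1)).1 (β i) j) (rl6 s ((3 * (i % 2) + j) % 6)) := by
  unfold TT
  by_cases h : j < 3
  · rw [if_pos h]
    have h1 : (3 * (i % 2) + j) % 6 = 3 * (i % 2) + j := by omega
    rw [h1]
    exact ext_b hS i j h
  · rw [if_neg h]
    have h1 : (3 * (i % 2) + j) % 6 = 3 * ((i + 1) % 2) + (j - 3) := by omega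
    rw [h1]
    exact ext_a hS (i + 1) (j - 3) (by omega)

theorem len_T (i j : ℕ) (hj : j < 6) :
    2 * (i / 2) ≤ (TT (s i).1 (s (i + 1)).1 (β i) j).length := by
  unfold TT
  by_cases h : j < 3
  · rw [if_pos h]
    exact (len_a hS i j h).trans (grow_a hS i j).1.length_le
  · rw [if_neg h]
    refine le_trans ?_ (len_a hS (i + 1) (j - 3) (by omega))
    omega

/-- every real computes the reports of its group -/
theorem ci_msg (h0 : ∀ c, (s 0).1.st c = [] ∧ (s 0).2.st c = []) (j : ℕ) (hj : j < 6) :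
    CI {orc (rl6 s j)} (fun n => msg (TT (s (2 * n + j / 3)).1 (s (2 * n + j / 3 + 1)).1
      (β (2 * n + j / 3))) (bb (2 * n + j / 3))) := by
  by_cases h : j < 3
  · have h1 : j / 3 = 0 := by omega
    rw [h1]
    refine parse (S := fun n => (s (2 * n)).1.st j) (β := fun n => β (2 * n) j) (h0 j).1
      (fun n => ?_) (fun n => ?_)
    · have e : 2 * (n + 1) = 2 * n + 1 + 1 := by ring
      show (s (2 * (n + 1))).1.st j = _
      rw [e, (hS (2 * n + 1)).hst', (hS (2 * n)).hst j]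
      rfl
    · exact Ext_mono (List.prefix_append _ _) (even_a hS n j h)
  · have h1 : j / 3 = 1 := by omega
    rw [h1]
    refine parse (S := fun n => (s (2 * n)).2.st (j - 3)) (β := fun n => β (2 * n + 1) (j - 3))
      (h0 (j - 3)).2 (fun n => ?_) (fun n => ?_)
    · have e : 2 * (n + 1) = 2 * n + 1 + 1 := by ring
      show (s (2 * (n + 1))).2.st (j - 3) = _
      rw [e, (hS (2 * n + 1)).hst (j - 3), (hS (2 * n)).hst']
    · have h2 := even_p hS n (j - 3)
      have h3 : 3 + (j - 3) = j := by omega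
      rw [h3] at h2
      exact Ext_mono (List.prefix_append _ _) h2

omit hS in
theorem get_computable (k : ℕ) :
    Computable₂ fun m n : ℕ => (((gs k m)[n]?).getD false).toNat := by
  have h1 : Computable fun q : ℕ × ℕ => ((gs k q.1)[q.2]?).getD false :=
    Computable.option_getD (Computable.list_getElem?.comp
      ((gs_computable k).comp Computable.fst) Computable.snd) (Computable.const false)
  exact (Primrec.dom_finite Bool.toNat).to_comp.comp h1

/-- the six reals have the same degree -/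
theorem rl6_tr (h0 : ∀ c, (s 0).1.st c = [] ∧ (s 0).2.st c = []) {j j' : ℕ} (hj : j < 6)
    (hj' : j' < 6) : TR (rl6 s j') (rl6 s j) := by
  have h1 := ci_msg hS h0 j hj
  have h2 := CI.comp (O := {orc (rl6 s j)}) (α := ℕ) (g := fun n : ℕ => n + 1) h1
    (CI.of_computable Computable.succ)
  rw [tr_iff_ci]
  refine (CI.comp₂ (h := fun m n : ℕ => (((gs ((j' + 3 * (j / 3)) % 6) m)[n]?).getD false).toNat)
    (get_computable _) h2 (CI.of_computable Computable.id)).congr fun n => ?_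
  show _ = (((gs ((j' + 3 * (j / 3)) % 6) (msg (TT (s (2 * (n + 1) + j / 3)).1
    (s (2 * (n + 1) + j / 3 + 1)).1 (β (2 * (n + 1) + j / 3)))
      (bb (2 * (n + 1) + j / 3))))[n]?).getD false).toNat
  rw [gs_msg _ _ (Nat.mod_lt _ (by norm_num))]
  have hk : (j' + 3 * (j / 3)) % 6 < 6 := Nat.mod_lt _ (by norm_num)
  have h3 := ext_T hS (2 * (n + 1) + j / 3) ((j' + 3 * (j / 3)) % 6) hk
  have h4 := len_T hS (2 * (n + 1) + j / 3) ((j' + 3 * (j / 3)) % 6) hk
  have e1 : (3 * ((2 * (n + 1) + j / 3) % 2) + (j' + 3 * (j / 3)) % 6) % 6 = j' := by omega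
  rw [e1] at h3
  rw [(Ext_iff _ _).1 h3 n (by omega)]
  rfl

theorem bb_tr (h0 : ∀ c, (s 0).1.st c = [] ∧ (s 0).2.st c = []) {a : ℕ → Bool}
    (hb : ∀ i, bb i = a (i / 2)) {j : ℕ} (hj : j < 6) : TR a (rl6 s j) := by
  have h1 := ci_msg hS h0 j hj
  rw [tr_iff_ci]
  have h2 : Computable fun m : ℕ => (gb m).toNat :=
    (Primrec.dom_finite Bool.toNat).to_comp.comp gb_computable
  refine (CI.computable_comp h2 h1).congr fun n => ?_
  rw [gb_msg, hb]
  have h3 : (2 * n + j / 3) / 2 = n := by omega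
  rw [h3]

/-- the values compute the order of the departures -/
theorem zz_tr {W : ℕ → Bool} (hW : ∀ j < 6, TR (F (rl6 s j)) W) : TR zz W := by
  refine decode6 (Z := fun j => F (rl6 s j)) (E := fun i => (s i).1.e1)
    (E' := fun i => (s i).1.e2) (u := u) (v := v) hW ?_ ?_ (fun i => (hS i).hz) ?_ ?_
  · intro i
    exact (hS i).d1 _ _ (ext_b hS i 0 (by omega)) (ext_b hS i 1 (by omega))
  · intro i
    exact (hS i).d2 _ _ (ext_b hS i 0 (by omega)) (ext_b hS i 2 (by omega))
  · intro i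
    exact (hS i).i1 _ _ (ext_a hS (i + 1) 0 (by omega)) (ext_a hS (i + 1) 1 (by omega))
  · intro i
    exact (hS i).i2 _ _ (ext_a hS (i + 1) 0 (by omega)) (ext_a hS (i + 1) 2 (by omega))

end

/-- **six reals of the same degree, above any given real, whose values compute them** -/
theorem core6 {F : (ℕ → Bool) → (ℕ → Bool)} (hc : Continuous F) (hi : Function.Injective F)
    (hE : ∀ (σ : List Bool) (G : ℕ → Bool), TR (F (patch σ G)) (F G)) (a : ℕ → Bool) :
    ∃ δ : ℕ → ℕ → Bool, (∀ j < 6, ∀ j' < 6, TR (δ j) (δ j')) ∧ (∀ j < 6, TR a (δ j)) ∧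
      ∀ W, (∀ j < 6, TR (F (δ j)) W) → TR (δ 0) W := by
  obtain ⟨s, u, v, β, h0, hS⟩ := exists_seq hc hi hE a
  refine ⟨rl6 s, fun j hj j' hj' => rl6_tr hS h0 hj' hj, fun j hj => bb_tr hS h0 (fun i => rfl) hj,
    fun W hW => ?_⟩
  have h1 := zz_tr hS hW
  rw [tr_iff_ci] at h1 ⊢
  refine (CI.comp h1 (CI.add (CI.mul (CI.const 2) (CI.of_computable Computable.id))
    (CI.const 1))).congr fun q => ?_
  show (rl6 s 0 q).toNat = (ext ((s (2 * q + 1)).2.cur 0) ((2 * q + 1) / 2)).toNat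
  have e1 : (2 * q + 1) / 2 = q := by omega
  have h2 := ext_p hS (2 * q + 1) 0 (by omega)
  have e2 : 3 * ((2 * q + 1 + 1) % 2) + 0 = 0 := by omega
  rw [e2] at h2
  have h3 := len_p_odd hS q 0 (by omega)
  rw [e1]
  unfold ext
  rw [(Ext_iff _ _).1 h2 q (by omega)]
  rfl

end Pool.Agent.MSix
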