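import Pool.Agent.Lib.MSix.Val

/-!
# Decoding from six reals

Two groups of three reals.  At the even events the first group is active, at the odd events the
second one; the order of the two departures of the active group is one bit, and the two levels
identify the two indices of the other group.
-/

set_option autoImplicit false

namespace Pool.Agent.MSix

open Pool.Agent.GammaZero Pool.Agent.Mart Encodable

/-- the real number `c` of the group which is active at `i` -/
def Xr (Z : ℕ → ℕ → Bool) (i c : ℕ) : ℕ → Bool := Z (3 * (i % 2) + c)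

/-- `u` is the first difference of `y` and the real computed by `e` from `x` -/
def DpR (x y : ℕ → Bool) (e u t : ℕ) : Prop :=
  (∀ k < u, U x e k t (y k).toNat) ∧ ∃ b < 2, b ≠ (y u).toNat ∧ U x e u t b

theorem DpR.unique {x y : ℕ → Bool} {e u u' t t' : ℕ} (h : DpR x y e u t)
    (h' : DpR x y e u' t') : u = u' := by
  obtain ⟨h1, b, -, hb, h2⟩ := h
  obtain ⟨h1', b', -, hb', h2'⟩ := h'
  rcases lt_trichotomy u u' with hl | hl | hl
  · exact absurd (h2.unique (h1' u hl)) hb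
  · exact hl
  · exact absurd (h2'.unique (h1 u' hl)) hb'

section

variable {Z : ℕ → ℕ → Bool} {W : ℕ → Bool} {α : Type} [Primcodable α]

theorem ci_X (hW : ∀ j < 6, TR (Z j) W) {c : ℕ} (hc : c < 3) {i k : α → ℕ}
    (hi : CI {orc W} i) (hk : CI {orc W} k) :
    CI {orc W} (fun a => (Xr Z (i a) c (k a)).toNat) := by
  refine (CI.ite (DI.eq (CI.mod hi (CI.const 2)) (CI.const 0))
    (ci_orc_comp (hW c (by omega)) hk) (ci_orc_comp (hW (3 + c) (by omega)) hk)).congr fun a => ?_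
  unfold Xr
  by_cases h : i a % 2 = 0
  · rw [if_pos h, h, Nat.mul_zero, Nat.zero_add]
  · have h1 : i a % 2 = 1 := by omega
    rw [if_neg h, h1, Nat.mul_one]

theorem di_UX (hW : ∀ j < 6, TR (Z j) W) {i e k t v : α → ℕ} (hi : CI {orc W} i)
    (he : CI {orc W} e) (hk : CI {orc W} k) (ht : CI {orc W} t) (hv : CI {orc W} v) :
    DI {orc W} (fun a => U (Xr Z (i a) 0) (e a) (k a) (t a) (v a)) := by
  have h1 := DI.eq (CI.mod hi (CI.const 2)) (CI.const 0)
  have h2 := DI.U (x := Z 0) (hW 0 (by omega)) he hk ht hv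
  have h3 := DI.U (x := Z 3) (hW 3 (by omega)) he hk ht hv
  refine ((h1.and h2).or (h1.not.and h3)).of_iff fun a => ?_
  unfold Xr
  by_cases h : i a % 2 = 0
  · rw [h, Nat.mul_zero, Nat.zero_add]
    simp
  · have h1 : i a % 2 = 1 := by omega
    rw [h1, Nat.mul_one]
    simp

theorem di_allX (hW : ∀ j < 6, TR (Z j) W) {c : ℕ} (hc : c < 3) {i e u t : α → ℕ}
    (hi : CI {orc W} i) (he : CI {orc W} e) (hu : CI {orc W} u) (ht : CI {orc W} t) :
    DI {orc W} (fun a => ∀ k < u a, U (Xr Z (i a) 0) (e a) k (t a) (Xr Z (i a) c k).toNat) := by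
  have h := di_UX (α := α × ℕ) hW (hi.comp_computable Computable.fst)
    (he.comp_computable Computable.fst) (CI.of_computable Computable.snd)
    (ht.comp_computable Computable.fst)
    (ci_X hW hc (hi.comp_computable Computable.fst) (CI.of_computable Computable.snd))
  exact DI.ball h hu

theorem di_diffX (hW : ∀ j < 6, TR (Z j) W) {c : ℕ} (hc : c < 3) {i e u t : α → ℕ}
    (hi : CI {orc W} i) (he : CI {orc W} e) (hu : CI {orc W} u) (ht : CI {orc W} t) :
    DI {orc W} (fun a => ∃ b < 2, b ≠ (Xr Z (i a) c (u a)).toNat ∧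
      U (Xr Z (i a) 0) (e a) (u a) (t a) b) := by
  have h := di_UX (α := α × ℕ) hW (hi.comp_computable Computable.fst)
    (he.comp_computable Computable.fst) (hu.comp_computable Computable.fst)
    (ht.comp_computable Computable.fst) (CI.of_computable Computable.snd)
  have h2 : DI {orc W} (fun q : α × ℕ => q.2 ≠ (Xr Z (i q.1) c (u q.1)).toNat) :=
    DI.not (DI.eq (CI.of_computable Computable.snd)
      (ci_X hW hc (hi.comp_computable Computable.fst) (hu.comp_computable Computable.fst)))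
  exact DI.bex (h2.and h) (CI.const 2)

theorem di_DpR (hW : ∀ j < 6, TR (Z j) W) {c : ℕ} (hc : c < 3) {i e u t : α → ℕ}
    (hi : CI {orc W} i) (he : CI {orc W} e) (hu : CI {orc W} u) (ht : CI {orc W} t) :
    DI {orc W} (fun a => DpR (Xr Z (i a) 0) (Xr Z (i a) c) (e a) (u a) (t a)) :=
  (di_allX hW hc hi he hu ht).and (di_diffX hW hc hi he hu ht)

theorem di_id1X (hW : ∀ j < 6, TR (Z j) W) {c : ℕ} (hc : c < 3) {i M N f : α → ℕ}
    (hi : CI {orc W} i) (hM : CI {orc W} M) (hN : CI {orc W} N) (hf : CI {orc W} f) :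
    DI {orc W} (fun a => Id1 (Xr Z (i a) 0) (M a) (N a) (Xr Z (i a) c) (f a)) := by
  refine DI.and (di_allX hW hc hi hf hM hN) ?_
  have h := di_allX (α := α × ℕ) hW hc (hi.comp_computable Computable.fst)
    (CI.of_computable Computable.snd) (hM.comp_computable Computable.fst)
    (hN.comp_computable Computable.fst)
  exact DI.ball h.not hf

end

/-- the decoding lemma -/
theorem decode6 {Z : ℕ → ℕ → Bool} {W : ℕ → Bool} (hW : ∀ j < 6, TR (Z j) W) {z : ℕ → Bool}
    {E E' u v : ℕ → ℕ} (h1 : ∀ i, ∃ t, DpR (Xr Z i 0) (Xr Z i 1) (E i) (u i) t)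
    (h2 : ∀ i, ∃ t, DpR (Xr Z i 0) (Xr Z i 2) (E' i) (v i) t)
    (hz : ∀ i, z i = decide (u i < v i))
    (hI : ∀ i, Id1 (Xr Z (i + 1) 0) (min (u i) (v i)) (max (u i) (v i)) (Xr Z (i + 1) 1)
      (E (i + 1)))
    (hI' : ∀ i, Id1 (Xr Z (i + 1) 0) (min (u i) (v i)) (max (u i) (v i)) (Xr Z (i + 1) 2)
      (E' (i + 1))) : TR z W := by
  let B : ℕ → ℕ := fun i => Nat.casesOn i 0 fun i => (z i).toNat
  let s : ℕ → ℕ := fun i => Nat.pair (E i) (Nat.pair (E' i) (B i))
  let P : ℕ × ℕ × ℕ → Prop := fun p =>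
    DpR (Xr Z p.1 0) (Xr Z p.1 1) p.2.1.unpair.1 p.2.2.unpair.1 p.2.2.unpair.2.unpair.2.unpair.1 ∧
    DpR (Xr Z p.1 0) (Xr Z p.1 2) p.2.1.unpair.2.unpair.1 p.2.2.unpair.2.unpair.1
      p.2.2.unpair.2.unpair.2.unpair.1 ∧
    Id1 (Xr Z (p.1 + 1) 0) (min p.2.2.unpair.1 p.2.2.unpair.2.unpair.1)
      (max p.2.2.unpair.1 p.2.2.unpair.2.unpair.1) (Xr Z (p.1 + 1) 1)
      p.2.2.unpair.2.unpair.2.unpair.2.unpair.1 ∧
    Id1 (Xr Z (p.1 + 1) 0) (min p.2.2.unpair.1 p.2.2.unpair.2.unpair.1)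
      (max p.2.2.unpair.1 p.2.2.unpair.2.unpair.1) (Xr Z (p.1 + 1) 2)
      p.2.2.unpair.2.unpair.2.unpair.2.unpair.2
  let nxt : ℕ × ℕ × ℕ → ℕ := fun p =>
    Nat.pair p.2.2.unpair.2.unpair.2.unpair.2.unpair.1
      (Nat.pair p.2.2.unpair.2.unpair.2.unpair.2.unpair.2
        (if p.2.2.unpair.1 < p.2.2.unpair.2.unpair.1 then 1 else 0))
  have ci : CI {orc W} (fun p : ℕ × ℕ × ℕ => p.1) := CI.of_computable Computable.fst
  have ci' : CI {orc W} (fun p : ℕ × ℕ × ℕ => p.1 + 1) := CI.add ci (CI.const 1)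
  have cs : CI {orc W} (fun p : ℕ × ℕ × ℕ => p.2.1) :=
    CI.of_computable (Computable.fst.comp Computable.snd)
  have cw : CI {orc W} (fun p : ℕ × ℕ × ℕ => p.2.2) :=
    CI.of_computable (Computable.snd.comp Computable.snd)
  have ce := CI.left cs
  have ce' := CI.left (CI.right cs)
  have cu := CI.left cw
  have cv := CI.left (CI.right cw)
  have ct := CI.left (CI.right (CI.right cw))
  have cf := CI.left (CI.right (CI.right (CI.right cw)))
  have cf' := CI.right (CI.right (CI.right (CI.right cw)))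
  have cM : CI {orc W} (fun p : ℕ × ℕ × ℕ => min p.2.2.unpair.1 p.2.2.unpair.2.unpair.1) :=
    CI.comp₂ (h := fun a b => min a b) Primrec.nat_min.to_comp cu cv
  have cN : CI {orc W} (fun p : ℕ × ℕ × ℕ => max p.2.2.unpair.1 p.2.2.unpair.2.unpair.1) :=
    CI.comp₂ (h := fun a b => max a b) Primrec.nat_max.to_comp cu cv
  have hP : DI {orc W} P :=
    (di_DpR hW (by omega) ci ce cu ct).and ((di_DpR hW (by omega) ci ce' cv ct).and
      ((di_id1X hW (by omega) ci' cM cN cf).and (di_id1X hW (by omega) ci' cM cN cf')))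
  have hn : CI {orc W} nxt :=
    CI.npair cf (CI.npair cf' (CI.ite (DI.lt cu cv) (CI.const 1) (CI.const 0)))
  have mono : ∀ {x y : ℕ → Bool} {e u t t' : ℕ}, DpR x y e u t → t ≤ t' → DpR x y e u t' := by
    intro x y e u t t' h ht
    obtain ⟨a1, b, a2, a3, a4⟩ := h
    exact ⟨fun k hk => (a1 k hk).mono ht, b, a2, a3, a4.mono ht⟩
  have hex : ∀ i, ∃ w, P (i, s i, w) := by
    intro i
    obtain ⟨t1, ht1⟩ := h1 i
    obtain ⟨t2, ht2⟩ := h2 i
    refine ⟨Nat.pair (u i) (Nat.pair (v i) (Nat.pair (max t1 t2)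
      (Nat.pair (E (i + 1)) (E' (i + 1))))), ?_⟩
    simp only [P, s, Nat.unpair_pair]
    exact ⟨mono ht1 (le_max_left _ _), mono ht2 (le_max_right _ _), hI i, hI' i⟩
  have hnx : ∀ i w, P (i, s i, w) → nxt (i, s i, w) = s (i + 1) := by
    intro i w hw
    simp only [P, s, Nat.unpair_pair] at hw
    obtain ⟨a1, a2, a3, a4⟩ := hw
    obtain ⟨t1, ht1⟩ := h1 i
    obtain ⟨t2, ht2⟩ := h2 i
    have e1 := a1.unique ht1
    have e2 := a2.unique ht2
    simp only [nxt]
    rw [e1, e2] at a3 a4 ⊢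
    rw [a3.unique (hI i), a4.unique (hI' i)]
    show _ = Nat.pair (E (i + 1)) (Nat.pair (E' (i + 1)) (z i).toNat)
    rw [hz i]
    by_cases h : u i < v i
    · simp [h]
    · simp [h]
  have hs := iter_search hP hn s hex hnx
  rw [tr_iff_ci]
  have h3 : CI {orc W} (fun i : ℕ => (s (i + 1)).unpair.2.unpair.2) :=
    CI.right (CI.right (CI.comp hs (CI.of_computable Computable.succ)))
  refine h3.congr fun i => ?_
  show _ = (Nat.pair (E (i + 1)) (Nat.pair (E' (i + 1)) (z i).toNat)).unpair.2.unpair.2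
  simp only [Nat.unpair_pair]

end Pool.Agent.MSix
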