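import Pool.Agent.Lib.MSix.SigJ
import Pool.Agent.Lib.MJump.Main

/-!
# A name for the real computed by a program from a jump
-/

set_option autoImplicit false

namespace Pool.Agent.MSix

open Pool.Agent.GammaZero Pool.Agent.Mart Encodable

section

variable {X : ℕ → Bool} {F : List Bool → ℕ → Bool}
  (hF : CI {orc X} (fun q : List Bool × ℕ => (F q.1 q.2).toNat))

include hF

theorem ci_resF {α : Type} [Primcodable α] {p : α → List Bool} (hp : Computable p)
    {e k s : α → ℕ} (he : CI {orc X} e) (hk : CI {orc X} k) (hs : CI {orc X} s) :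
    CI {orc X} (fun a => res (F (p a)) (e a) (k a) (s a)) := by
  have h1 : CI {orc X} (fun r : α × ℕ => encode (pre (F (p r.1)) r.2)) :=
    (fam_pre hF).comp_computable (g := fun r : α × ℕ => (p r.1, r.2))
      ((hp.comp Computable.fst).pair Computable.snd)
  have h2 : CI {orc X} (fun a => encode (pre (F (p a)) (s a).unpair.1)) :=
    CI.sub h1 (CI.left hs)
  exact CI.computable_comp evN_computable (CI.npair (CI.npair (CI.right hs) he)
    (CI.npair h2 hk))

theorem di_UF {α : Type} [Primcodable α] {p : α → List Bool} (hp : Computable p)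
    {e k t v : α → ℕ} (he : CI {orc X} e) (hk : CI {orc X} k) (ht : CI {orc X} t)
    (hv : CI {orc X} v) :
    DI {orc X} (fun a => U (F (p a)) (e a) (k a) (t a) (v a)) := by
  have h1 : DI {orc X} (fun q : (α × ℕ) × ℕ => res (F (p q.1.1)) (e q.1.1) (k q.1.1) q.2 = 0) :=
    DI.eq (ci_resF hF (hp.comp (Computable.fst.comp Computable.fst))
      (he.comp_computable (Computable.fst.comp Computable.fst))
      (hk.comp_computable (Computable.fst.comp Computable.fst))
      (CI.of_computable Computable.snd)) (CI.const 0)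
  have h2 : DI {orc X} (fun q : α × ℕ =>
      ∀ s' < q.2, res (F (p q.1)) (e q.1) (k q.1) s' = 0) :=
    DI.ball h1 (CI.of_computable Computable.snd)
  have h3 : DI {orc X} (fun q : α × ℕ => res (F (p q.1)) (e q.1) (k q.1) q.2 = v q.1 + 1) :=
    DI.eq (ci_resF hF (hp.comp Computable.fst) (he.comp_computable Computable.fst)
      (hk.comp_computable Computable.fst) (CI.of_computable Computable.snd))
      (CI.add (hv.comp_computable Computable.fst) (CI.const 1))
  exact DI.bex (h3.and h2) ht

end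

/-- the partial real decided by `ρ` -/
noncomputable def yy (Y' : List Bool → ℕ → Bool → Prop) (ρ : List Bool) (j : ℕ) : Bool :=
  @decide (Y' ρ j true) (Classical.propDecidable _)

theorem yy_of {Y' : List Bool → ℕ → Bool → Prop} (h : Name Y') {ρ : List Bool} {j : ℕ}
    {b : Bool} (hb : Y' ρ j b) : yy Y' ρ j = b := by
  classical
  unfold yy
  cases b with
  | true => exact @decide_eq_true _ (Classical.propDecidable _) hb
  | false => exact @decide_eq_false _ (Classical.propDecidable _) fun h1 => h.cons ρ j ⟨h1, hb⟩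

/-- the name of the computed real -/
def YU (Y' : List Bool → ℕ → Bool → Prop) (e : ℕ) (ρ : List Bool) (i : ℕ) (b : Bool) : Prop :=
  ∃ s < ρ.length + 1, (∀ j < s, Y' ρ j true ∨ Y' ρ j false) ∧ U (yy Y' ρ) e i s b.toNat

theorem name_val {χ θ : (ℕ → Bool) → (ℕ → Bool)} {n : ℕ}
    (hS : ∀ i, Sig n {A | χ A i = true}) {e : ℕ} (hθ : ∀ A, Idx (χ A) e (θ A)) :
    ∃ p : ℕ → Bool, ∀ t, TR p t → ∃ Y : List Bool → ℕ → Bool → Prop, Name Y ∧
      DI {orc (jmp (n + 1) t)} (fun q : List Bool × ℕ × Bool => Y q.1 q.2.1 q.2.2) ∧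
      ∀ G, Gen (jmp n t) G → ∀ i, ∃ m, Y (pre G m) i (θ (bjoin t G) i) := by
  obtain ⟨p, hp⟩ := name_of_sig hS
  refine ⟨p, fun t ht => ?_⟩
  obtain ⟨Y', hN, hD, hT⟩ := hp t ht
  have hyy : ∀ ρ τ j, ρ <+: τ → (Y' ρ j true ∨ Y' ρ j false) → yy Y' τ j = yy Y' ρ j := by
    intro ρ τ j hρ h
    rcases h with h | h
    · rw [yy_of hN h, yy_of hN (hN.mono _ _ _ _ hρ h)]
    · rw [yy_of hN h, yy_of hN (hN.mono _ _ _ _ hρ h)]
  have hmono : ∀ (ρ τ : List Bool) (i : ℕ) (b : Bool), ρ <+: τ → YU Y' e ρ i b →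
      YU Y' e τ i b := by
    rintro ρ τ i b hρ ⟨s, hs, h1, h2⟩
    refine ⟨s, lt_of_lt_of_le hs (Nat.succ_le_succ hρ.length_le), fun j hj => ?_, ?_⟩
    · rcases h1 j hj with h | h
      · exact Or.inl (hN.mono _ _ _ _ hρ h)
      · exact Or.inr (hN.mono _ _ _ _ hρ h)
    · exact (U_ext fun j hj => hyy ρ τ j hρ (h1 j hj)).2 h2
  have htruth : ∀ G, Gen (jmp n t) G → ∀ i, ∃ m, YU Y' e (pre G m) i (θ (bjoin t G) i) := by
    intro G hG i
    obtain ⟨s, hs⟩ := hθ (bjoin t G) i
    have h1 : ∀ K, ∃ m, ∀ j < K, Y' (pre G m) j (χ (bjoin t G) j) := by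
      intro K
      induction K with
      | zero => exact ⟨0, fun j hj => absurd hj (Nat.not_lt_zero j)⟩
      | succ K ih =>
        obtain ⟨m, hm⟩ := ih
        obtain ⟨m', hm'⟩ := hT G hG K
        refine ⟨max m m', fun j hj => ?_⟩
        rcases Nat.lt_or_ge j K with h | h
        · exact hN.mono _ _ _ _ (pre_prefix G (le_max_left _ _)) (hm j h)
        · have : j = K := by omega
          subst this
          exact hN.mono _ _ _ _ (pre_prefix G (le_max_right _ _)) hm'
    obtain ⟨m, hm⟩ := h1 s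
    refine ⟨max m s, s, ?_, fun j hj => ?_, ?_⟩
    · rw [pre_length]
      exact Nat.lt_succ_of_le (le_max_right _ _)
    · have h2 := hN.mono _ _ _ _ (pre_prefix G (le_max_left m s)) (hm j hj)
      cases h3 : χ (bjoin t G) j with
      | true => rw [h3] at h2; exact Or.inl h2
      | false => rw [h3] at h2; exact Or.inr h2
    · exact (U_ext fun j hj =>
        yy_of hN (hN.mono _ _ _ _ (pre_prefix G (le_max_left m s)) (hm j hj))).2 hs
  refine ⟨YU Y' e, ⟨hmono, ?_, ?_⟩, ?_, htruth⟩
  · rintro ρ i ⟨⟨s, _, _, h1⟩, s', _, _, h2⟩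
    have h3 := h1.unique h2
    exact absurd h3 (by decide)
  · intro ρ i
    obtain ⟨G₀, hG₀⟩ := (dense_of_mem_residual (gen_residual (jmp n t))).nonempty
    have hG₀' : Gen (jmp n t) G₀ := hG₀
    obtain ⟨m, hm⟩ := htruth _ (hG₀'.patch ρ) i
    refine ⟨pre (patch ρ G₀) (max m ρ.length), _, prefix_pre (Ext_patch ρ G₀) (le_max_right _ _),
      hmono _ _ _ _ (pre_prefix _ (le_max_left _ _)) hm⟩
  · classical
    have hYt : ∀ b : Bool, DI {orc (jmp (n + 1) t)} (fun q : List Bool × ℕ => Y' q.1 q.2 b) :=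
      fun b => hD.comp_computable (g := fun q : List Bool × ℕ => (q.1, q.2, b))
        (Computable.fst.pair (Computable.snd.pair (Computable.const b)))
    have hF : CI {orc (jmp (n + 1) t)} (fun q : List Bool × ℕ => (yy Y' q.1 q.2).toNat) := by
      refine (CI.ite (hYt true) (CI.const 1) (CI.const 0)).congr fun q => ?_
      unfold yy
      by_cases h : Y' q.1 q.2 true
      · rw [if_pos h, decide_eq_true h]; rfl
      · rw [if_neg h, decide_eq_false h]; rfl
    have h1 : DI {orc (jmp (n + 1) t)} (fun r : (List Bool × ℕ × Bool) × ℕ =>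
        ∀ j < r.2, Y' r.1.1 j true ∨ Y' r.1.1 j false) := by
      have h2 : DI {orc (jmp (n + 1) t)} (fun r : ((List Bool × ℕ × Bool) × ℕ) × ℕ =>
          Y' r.1.1.1 r.2 true ∨ Y' r.1.1.1 r.2 false) :=
        (((hYt true).or (hYt false)).comp_computable
          (g := fun r : ((List Bool × ℕ × Bool) × ℕ) × ℕ => (r.1.1.1, r.2))
          ((Computable.fst.comp (Computable.fst.comp Computable.fst)).pair Computable.snd))
      exact DI.ball h2 (CI.of_computable Computable.snd)
    have h3 : DI {orc (jmp (n + 1) t)} (fun r : (List Bool × ℕ × Bool) × ℕ =>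
        U (yy Y' r.1.1) e r.1.2.1 r.2 r.1.2.2.toNat) :=
      di_UF hF (Computable.fst.comp Computable.fst) (CI.const e)
        (CI.of_computable (Computable.fst.comp (Computable.snd.comp Computable.fst)))
        (CI.of_computable Computable.snd)
        (CI.of_computable ((Primrec.dom_finite Bool.toNat).to_comp.comp
          (Computable.snd.comp (Computable.snd.comp Computable.fst))))
    have h4 : CI {orc (jmp (n + 1) t)} (fun q : List Bool × ℕ × Bool => q.1.length + 1) :=
      CI.add (CI.of_computable (Computable.list_length.comp Computable.fst)) (CI.const 1)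
    exact DI.bex (h1.and h3) h4

end Pool.Agent.MSix
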