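import Pool.Agent.Lib.MSix.Str

/-!
# Reading the reports
-/

set_option autoImplicit false

namespace Pool.Agent.MSix

open Pool.Agent.GammaZero Pool.Agent.Mart Encodable

/-- the first report after the position `p` (in pairs) starts at `q` and carries `μ` -/
def Par (δ : ℕ → Bool) (p q μ : ℕ) : Prop :=
  p ≤ q ∧ (∀ k < q, p ≤ k → δ (2 * k) = false) ∧ (∀ k < μ + 1, δ (2 * (q + k)) = true) ∧
    (∀ k < μ, δ (2 * (q + k) + 1) = true) ∧ δ (2 * (q + μ) + 1) = false

theorem Par.unique {δ : ℕ → Bool} {p q q' μ μ' : ℕ} (h : Par δ p q μ) (h' : Par δ p q' μ') :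
    q = q' ∧ μ = μ' := by
  obtain ⟨a1, a2, a3, a4, a5⟩ := h
  obtain ⟨b1, b2, b3, b4, b5⟩ := h'
  have hq : q = q' := by
    rcases lt_trichotomy q q' with hl | hl | hl
    · have h1 := a3 0 (by omega)
      rw [Nat.add_zero, b2 q hl a1] at h1
      exact absurd h1 (by simp)
    · exact hl
    · have h1 := b3 0 (by omega)
      rw [Nat.add_zero, a2 q' hl b1] at h1
      exact absurd h1 (by simp)
  subst hq
  refine ⟨rfl, ?_⟩
  rcases lt_trichotomy μ μ' with hl | hl | hl
  · have h1 := b4 μ hl
    rw [a5] at h1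
    exact absurd h1 (by simp)
  · exact hl
  · have h1 := a4 μ' hl
    rw [b5] at h1
    exact absurd h1 (by simp)

theorem di_bit {O : Set (ℕ →. ℕ)} {δ : ℕ → Bool} (h : Nat.RecursiveIn O (orc δ)) {α : Type}
    [Primcodable α] {f : α → ℕ} (hf : CI O f) (b : Bool) : DI O (fun a => δ (f a) = b) := by
  refine (DI.eq (ci_orc_comp h hf) (CI.const b.toNat)).of_iff fun a => ?_
  constructor
  · intro h1
    rw [h1]
  · exact fun h1 => toNat_inj h1

theorem di_Par {δ : ℕ → Bool} {α : Type} [Primcodable α] {p q μ : α → ℕ}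
    (hp : CI {orc δ} p) (hq : CI {orc δ} q) (hμ : CI {orc δ} μ) :
    DI {orc δ} (fun a => Par δ (p a) (q a) (μ a)) := by
  have hδ := TR.refl δ
  have hk : CI {orc δ} (fun r : α × ℕ => r.2) := CI.of_computable Computable.snd
  have hq' : CI {orc δ} (fun r : α × ℕ => q r.1) := hq.comp_computable Computable.fst
  have h1 := DI.le hp hq
  have h2 : DI {orc δ} (fun a => ∀ k < q a, p a ≤ k → δ (2 * k) = false) :=
    DI.ball (DI.imp (DI.le (hp.comp_computable Computable.fst) hk)
      (di_bit hδ (CI.mul (CI.const 2) hk) false)) hq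
  have h3 : DI {orc δ} (fun a => ∀ k < μ a + 1, δ (2 * (q a + k)) = true) :=
    DI.ball (di_bit hδ (CI.mul (CI.const 2) (CI.add hq' hk)) true) (CI.add hμ (CI.const 1))
  have h4 : DI {orc δ} (fun a => ∀ k < μ a, δ (2 * (q a + k) + 1) = true) :=
    DI.ball (di_bit hδ (CI.add (CI.mul (CI.const 2) (CI.add hq' hk)) (CI.const 1)) true) hμ
  have h5 : DI {orc δ} (fun a => δ (2 * (q a + μ a) + 1) = false) :=
    di_bit hδ (CI.add (CI.mul (CI.const 2) (CI.add hq hμ)) (CI.const 1)) false
  exact h1.and (h2.and (h3.and (h4.and h5)))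

/-- the reports can be read off the real -/
theorem parse {δ : ℕ → Bool} {S β : ℕ → List Bool} {m : ℕ → ℕ} (h0 : S 0 = [])
    (hS : ∀ n, S (n + 1) = S n ++ fl (β n) ++ rp (m n)) (hδ : ∀ n, Mart.Ext (S n) δ) :
    CI {orc δ} m := by
  let p : ℕ → ℕ := fun n => (S n).length / 2
  have hl : ∀ n, (S n).length = 2 * p n := by
    intro n
    have h1 : (S n).length % 2 = 0 := by
      induction n with
      | zero => rw [h0]; rfl
      | succ n ih =>
        rw [hS, List.length_append, List.length_append, fl_length, rp_length]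
        omega
    show (S n).length = 2 * ((S n).length / 2)
    omega
  have hp1 : ∀ n, p (n + 1) = p n + (β n).length + m n + 1 := by
    intro n
    have h1 := hl (n + 1)
    rw [hS, List.length_append, List.length_append, fl_length, rp_length, hl n] at h1
    omega
  have hPar : ∀ n, Par δ (p n) (p n + (β n).length) (m n) := by
    intro n
    have h1 := (Ext_iff _ _).1 (hδ (n + 1))
    rw [hS] at h1
    have hlen : (S n ++ fl (β n)).length = 2 * (p n + (β n).length) := by
      rw [List.length_append, fl_length, hl n]; ring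
    have hlen2 : (S n ++ fl (β n) ++ rp (m n)).length =
        2 * (p n + (β n).length) + 2 * (m n + 1) := by
      rw [List.length_append, hlen, rp_length]
    have e2 : ∀ j, j < 2 * (m n + 1) → (rp (m n))[j]? =
        some (δ (2 * (p n + (β n).length) + j)) := by
      intro j hj
      have h2 := h1 (2 * (p n + (β n).length) + j) (by rw [hlen2]; omega)
      rw [List.getElem?_append_right (by rw [hlen]; omega), hlen, Nat.add_sub_cancel_left] at h2
      exact h2
    refine ⟨Nat.le_add_right _ _, fun k hk hpk => ?_, fun k hk => ?_, fun k hk => ?_, ?_⟩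
    · obtain ⟨j, rfl⟩ := Nat.exists_eq_add_of_le hpk
      have h2 := h1 (2 * (p n + j)) (by rw [hlen2]; omega)
      rw [List.getElem?_append_left (by rw [hlen]; omega),
        List.getElem?_append_right (by rw [hl n]; omega), hl n] at h2
      have h3 : 2 * (p n + j) - 2 * p n = 2 * j := by omega
      rw [h3, fl_even _ _ (by omega)] at h2
      exact (Option.some.inj h2).symm
    · have h2 := e2 (2 * k) (by omega)
      rw [rp_even _ _ (by omega)] at h2
      rw [Nat.mul_add 2 (p n + (β n).length) k]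
      exact (Option.some.inj h2).symm
    · have h2 := e2 (2 * k + 1) (by omega)
      rw [rp_odd _ _ hk] at h2
      rw [Nat.mul_add 2 (p n + (β n).length) k]
      exact (Option.some.inj h2).symm
    · have h2 := e2 (2 * m n + 1) (by omega)
      rw [rp_last] at h2
      rw [Nat.mul_add 2 (p n + (β n).length) (m n)]
      exact (Option.some.inj h2).symm
  let m' : ℕ → ℕ := fun n => Nat.casesOn n 0 m
  let s : ℕ → ℕ := fun n => Nat.pair (p n) (m' n)
  let P : ℕ × ℕ × ℕ → Prop := fun r => Par δ r.2.1.unpair.1 r.2.2.unpair.1 r.2.2.unpair.2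
  let nxt : ℕ × ℕ × ℕ → ℕ := fun r =>
    Nat.pair (r.2.2.unpair.1 + r.2.2.unpair.2 + 1) r.2.2.unpair.2
  have cs : CI {orc δ} (fun r : ℕ × ℕ × ℕ => r.2.1) :=
    CI.of_computable (Computable.fst.comp Computable.snd)
  have cw : CI {orc δ} (fun r : ℕ × ℕ × ℕ => r.2.2) :=
    CI.of_computable (Computable.snd.comp Computable.snd)
  have hP : DI {orc δ} P := di_Par (CI.left cs) (CI.left cw) (CI.right cw)
  have hn : CI {orc δ} nxt :=
    CI.npair (CI.add (CI.add (CI.left cw) (CI.right cw)) (CI.const 1)) (CI.right cw)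
  have hex : ∀ n, ∃ w, P (n, s n, w) := by
    intro n
    refine ⟨Nat.pair (p n + (β n).length) (m n), ?_⟩
    simp only [P, s, Nat.unpair_pair]
    exact hPar n
  have hnx : ∀ n w, P (n, s n, w) → nxt (n, s n, w) = s (n + 1) := by
    intro n w hw
    simp only [P, s, Nat.unpair_pair] at hw
    obtain ⟨e1, e2⟩ := hw.unique (hPar n)
    simp only [nxt]
    rw [e1, e2]
    show _ = Nat.pair (p (n + 1)) (m n)
    rw [hp1 n]
  have hs := iter_search hP hn s hex hnx
  have h3 : CI {orc δ} (fun n : ℕ => (s (n + 1)).unpair.2) :=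
    CI.right (CI.comp hs (CI.of_computable Computable.succ))
  refine h3.congr fun n => ?_
  show _ = (Nat.pair (p (n + 1)) (m n)).unpair.2
  simp only [Nat.unpair_pair]

end Pool.Agent.MSix
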