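import Pool.Agent.Lib.MSix.Dec6
import Pool.Agent.Lib.MSix.Parse

/-!
# The sequence of events
-/

set_option autoImplicit false

namespace Pool.Agent.MSix

open Pool.Agent.GammaZero Pool.Agent.Mart Encodable

/-- a group of three reals: the stems (base real `0`, coding reals `1`, `2`), the common free bits
since then, the two indices, the two thresholds -/
structure Grp where
  /-- stems -/
  st : ℕ → List Bool
  /-- free bits -/
  g : List Bool
  /-- index of the real 1 -/
  e1 : ℕ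
  /-- index of the real 2 -/
  e2 : ℕ
  /-- threshold of the real 1 -/
  m1 : ℕ
  /-- threshold of the real 2 -/
  m2 : ℕ

/-- the current strings -/
def Grp.cur (G : Grp) (c : ℕ) : List Bool := G.st c ++ fl G.g

/-- the invariant -/
structure Ok (F : (ℕ → Bool) → (ℕ → Bool)) (G : Grp) : Prop where
  len : ∀ c, (G.st c).length = (G.st 0).length
  a1 : V1 F (G.st 0) (G.st 1) G.g G.e1
  b1 : V2 F (G.st 0) (G.st 1) G.g G.e1 G.m1
  a2 : V1 F (G.st 0) (G.st 2) G.g G.e2
  b2 : V2 F (G.st 0) (G.st 2) G.g G.e2 G.m2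

/-- the number which is reported: six strings and a bit -/
def msg (T : ℕ → List Bool) (b : Bool) : ℕ := encode ((List.range 6).map T, b)

/-- the strings of a report -/
def gs (j m : ℕ) : List Bool :=
  ((((decode m : Option (List (List Bool) × Bool)).getD ([], false)).1)[j]?).getD []

/-- the bit of a report -/
def gb (m : ℕ) : Bool := ((decode m : Option (List (List Bool) × Bool)).getD ([], false)).2

theorem gs_msg (T : ℕ → List Bool) (b : Bool) {j : ℕ} (hj : j < 6) : gs j (msg T b) = T j := by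
  unfold gs msg
  rw [encodek, Option.getD_some, List.getElem?_map, List.getElem?_range hj]
  rfl

theorem gb_msg (T : ℕ → List Bool) (b : Bool) : gb (msg T b) = b := by
  unfold gb msg
  rw [encodek, Option.getD_some]

theorem gs_computable (j : ℕ) : Computable (gs j) :=
  Computable.option_getD (Computable.list_getElem?.comp
    (Computable.fst.comp (Computable.option_getD Computable.decode (Computable.const _)))
    (Computable.const j)) (Computable.const [])

theorem gb_computable : Computable gb :=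
  Computable.snd.comp (Computable.option_getD Computable.decode (Computable.const _))

/-- the strings of the report -/
def TT (A P : Grp) (β : ℕ → List Bool) (j : ℕ) : List Bool :=
  if j < 3 then A.st j ++ fl (β j) else P.cur (j - 3)

/-- one event: in `S = (A, P)` the group `A` is active; in `S'` the groups are exchanged -/
structure Stp (F : (ℕ → Bool) → (ℕ → Bool)) (S : Grp × Grp) (z b : Bool) (S' : Grp × Grp)
    (u v : ℕ) (β : ℕ → List Bool) : Prop where
  hz : z = decide (u < v)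
  hβ : ∀ c, S.1.g <+: β c
  d1 : Dp F (S.1.st 0 ++ fl (β 0)) (S.1.st 1 ++ fl (β 1)) S.1.e1 u
  d2 : Dp F (S.1.st 0 ++ fl (β 0)) (S.1.st 2 ++ fl (β 2)) S.1.e2 v
  hst : ∀ c, S'.2.st c = S.1.st c ++ fl (β c) ++ rp (msg (TT S.1 S'.1 β) b)
  hst' : S'.1.st = S.2.st
  hg' : S.2.g <+: S'.1.g
  i1 : Idd F (S'.1.cur 0) (S'.1.cur 1) (min u v) (max u v) S'.1.e1
  i2 : Idd F (S'.1.cur 0) (S'.1.cur 2) (min u v) (max u v) S'.1.e2

theorem exists_grp {F : (ℕ → Bool) → (ℕ → Bool)} (hc : Continuous F)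
    (hE : ∀ (σ : List Bool) (G : ℕ → Bool), TR (F (patch σ G)) (F G)) (st : ℕ → List Bool)
    (hl : ∀ c, (st c).length = (st 0).length) : ∃ G : Grp, G.st = st ∧ Ok F G := by
  obtain ⟨g1, e1, m1, -, a1, b1⟩ := valid_exists hc hE (hl 1).symm []
  obtain ⟨g2, e2, m2, h, a2, b2⟩ := valid_exists hc hE (hl 2).symm g1
  exact ⟨⟨st, g2, e1, e2, m1, m2⟩, rfl, ⟨hl, a1.mono h, b1.mono h, a2, b2⟩⟩

theorem exists_stp {F : (ℕ → Bool) → (ℕ → Bool)} (hc : Continuous F)
    (hi : Function.Injective F) (hE : ∀ (σ : List Bool) (G : ℕ → Bool), TR (F (patch σ G)) (F G))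
    {S : Grp × Grp} (h1 : Ok F S.1) (h2 : Ok F S.2) (z b : Bool) :
    ∃ S' u v β, Stp F S z b S' u v β ∧ Ok F S'.1 ∧ Ok F S'.2 := by
  obtain ⟨β0, β1, β2, γ, u, v, c1, c2, c3, c4, c5, c6, c7, c8, c9, c10, c11⟩ :=
    event hc hi h1.a1 h1.a2 h2.a1 h2.b1 h2.a2 h2.b2 z
  obtain ⟨β, hβ0, hβ1, hβ2, hβ3, hβ4⟩ : ∃ β : ℕ → List Bool, β 0 = β0 ∧ β 1 = β1 ∧ β 2 = β2 ∧
      (∀ c, S.1.g <+: β c) ∧ ∀ c, (β c).length = β0.length := by
    refine ⟨fun c => if c = 0 then β0 else if c = 1 then β1 else β2, rfl, rfl, rfl,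
      fun c => ?_, fun c => ?_⟩
    · by_cases h : c = 0
      · simp only [h, if_true]; exact c2
      by_cases h' : c = 1
      · simp only [h', if_true]; exact c3
      · simp only [if_neg h, if_neg h']; exact c4
    · by_cases h : c = 0
      · simp only [h, if_true]
      by_cases h' : c = 1
      · simp only [h', if_true]; exact c5
      · simp only [if_neg h, if_neg h']; exact c6
  let P' : Grp := { S.2 with g := γ }
  obtain ⟨A', hA', hA''⟩ := exists_grp hc hE
    (fun c => S.1.st c ++ fl (β c) ++ rp (msg (TT S.1 P' β) b)) (fun c => by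
      simp only [List.length_append, fl_length, hβ4 c, hβ4 0, h1.len c])
  refine ⟨(P', A'), u, v, β, ⟨c1, hβ3, ?_, ?_, fun c => ?_, rfl, c7, c10, c11⟩,
    ⟨h2.len, h2.a1.mono c7, h2.b1.mono c7, h2.a2.mono c7, h2.b2.mono c7⟩, hA''⟩
  · rw [hβ0, hβ1]; exact c8
  · rw [hβ0, hβ2]; exact c9
  · show A'.st c = _
    rw [hA']

/-- the sequence of states -/
theorem exists_seq {F : (ℕ → Bool) → (ℕ → Bool)} (hc : Continuous F)
    (hi : Function.Injective F) (hE : ∀ (σ : List Bool) (G : ℕ → Bool), TR (F (patch σ G)) (F G))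
    (a : ℕ → Bool) : ∃ (s : ℕ → Grp × Grp) (u v : ℕ → ℕ) (β : ℕ → ℕ → List Bool),
      (∀ c, (s 0).1.st c = [] ∧ (s 0).2.st c = []) ∧
      ∀ i, Stp F (s i) (ext ((s i).2.cur 0) (i / 2)) (a (i / 2)) (s (i + 1)) (u i) (v i)
        (β i) := by
  have h0 : ∀ (S : Grp × Grp) (z b : Bool), ∃ (S' : Grp × Grp) (u v : ℕ) (β : ℕ → List Bool),
      (Ok F S.1 ∧ Ok F S.2 → Stp F S z b S' u v β ∧ Ok F S'.1 ∧ Ok F S'.2) := by
    intro S z b
    by_cases h : Ok F S.1 ∧ Ok F S.2
    · obtain ⟨S', u, v, β, h1⟩ := exists_stp hc hi hE h.1 h.2 z b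
      exact ⟨S', u, v, β, fun _ => h1⟩
    · exact ⟨S, 0, 0, fun _ => [], fun h' => absurd h' h⟩
  choose T u v β hT using h0
  obtain ⟨G, hG, hok⟩ := exists_grp hc hE (fun _ => []) (fun _ => rfl)
  let s : ℕ → Grp × Grp := fun n => Nat.rec (G, G)
    (fun i S => T S (ext (S.2.cur 0) (i / 2)) (a (i / 2))) n
  have hs : ∀ i, s (i + 1) = T (s i) (ext ((s i).2.cur 0) (i / 2)) (a (i / 2)) := fun _ => rfl
  have hok' : ∀ i, Ok F (s i).1 ∧ Ok F (s i).2 := by
    intro i
    induction i with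
    | zero => exact ⟨hok, hok⟩
    | succ i ih => rw [hs]; exact (hT _ _ _ ih).2
  refine ⟨s, fun i => u (s i) (ext ((s i).2.cur 0) (i / 2)) (a (i / 2)),
    fun i => v (s i) (ext ((s i).2.cur 0) (i / 2)) (a (i / 2)),
    fun i => β (s i) (ext ((s i).2.cur 0) (i / 2)) (a (i / 2)), fun c => ?_, fun i => ?_⟩
  · have h1 : G.st c = [] := by rw [hG]
    exact ⟨h1, h1⟩
  · rw [hs]
    exact (hT _ _ _ (hok' i)).1

end Pool.Agent.MSix
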