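import Pool.Agent.Lib.MSix.Core

/-!
# The bits of the iterated jump are of finite Borel rank
-/

set_option autoImplicit false

namespace Pool.Agent.MSix

open Pool.Agent.GammaZero Pool.Agent.Mart Encodable

theorem sig_compl {n : ℕ} {S : Set (ℕ → Bool)} (h : Sig n S) : Sig (n + 1) Sᶜ :=
  ⟨fun _ => S, fun _ => h, (Set.iUnion_const _).symm⟩

theorem sig_iUnion {n : ℕ} {S : ℕ → Set (ℕ → Bool)} (h : ∀ i, Sig n (S i)) :
    Sig n (⋃ i, S i) := by
  cases n with
  | zero => exact isOpen_iUnion h
  | succ n =>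
    choose T hT hS using h
    refine ⟨fun k => T k.unpair.1 k.unpair.2, fun k => hT _ _, ?_⟩
    ext A
    simp only [Set.mem_iUnion]
    constructor
    · rintro ⟨i, hi⟩
      rw [hS i] at hi
      obtain ⟨j, hj⟩ := Set.mem_iUnion.1 hi
      exact ⟨Nat.pair i j, by rw [Nat.unpair_pair]; exact hj⟩
    · rintro ⟨k, hk⟩
      refine ⟨k.unpair.1, ?_⟩
      rw [hS]
      exact Set.mem_iUnion.2 ⟨k.unpair.2, hk⟩

theorem sig_union {n : ℕ} {S S' : Set (ℕ → Bool)} (h : Sig n S) (h' : Sig n S') :
    Sig n (S ∪ S') := by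
  have h1 : S ∪ S' = ⋃ i : ℕ, (fun i : ℕ => if i = 0 then S else S') i := by
    ext A
    simp only [Set.mem_union, Set.mem_iUnion]
    constructor
    · rintro (hA | hA)
      · exact ⟨0, by rw [if_pos rfl]; exact hA⟩
      · exact ⟨1, by rw [if_neg (by norm_num)]; exact hA⟩
    · rintro ⟨i, hi⟩
      split_ifs at hi
      · exact Or.inl hi
      · exact Or.inr hi
  rw [h1]
  refine sig_iUnion fun i => ?_
  show Sig n (if i = 0 then S else S')
  split_ifs
  · exact h
  · exact h'

theorem sig_inter {n : ℕ} {S S' : Set (ℕ → Bool)} (h : Sig n S) (h' : Sig n S') :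
    Sig n (S ∩ S') := by
  cases n with
  | zero => exact IsOpen.inter h h'
  | succ n =>
    obtain ⟨T, hT, rfl⟩ := h
    obtain ⟨T', hT', rfl⟩ := h'
    refine ⟨fun k => T k.unpair.1 ∪ T' k.unpair.2, fun k => sig_union (hT _) (hT' _), ?_⟩
    ext A
    simp only [Set.mem_inter_iff, Set.mem_iUnion, Set.mem_compl_iff, Set.mem_union, not_or]
    constructor
    · rintro ⟨⟨i, hi⟩, j, hj⟩
      exact ⟨Nat.pair i j, by rw [Nat.unpair_pair]; exact ⟨hi, hj⟩⟩
    · rintro ⟨k, hk, hk'⟩
      exact ⟨⟨_, hk⟩, _, hk'⟩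

theorem sig_of_clopen {n : ℕ} {S : Set (ℕ → Bool)} (ho : IsOpen S) (hc : IsClosed S) :
    Sig n S := by
  have key : ∀ n, ∀ S : Set (ℕ → Bool), IsOpen S → IsClosed S → Sig n S := by
    intro n
    induction n with
    | zero => exact fun S ho _ => ho
    | succ n ih =>
      intro S ho hc
      refine ⟨fun _ => Sᶜ, fun _ => ih Sᶜ hc.isOpen_compl ho.isClosed_compl, ?_⟩
      rw [Set.iUnion_const, compl_compl]
  exact key n S ho hc

theorem sig_succ {n : ℕ} {S : Set (ℕ → Bool)} (h : Sig n S) : Sig (n + 1) S := by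
  induction n generalizing S with
  | zero =>
    have h1 : S = ⋃ c : ℕ, {A : ℕ → Bool | Mart.Ext (dl c) A ∧ ∀ B, Mart.Ext (dl c) B → B ∈ S} := by
      ext A
      simp only [Set.mem_iUnion]
      constructor
      · intro hA
        obtain ⟨n, hn⟩ := Mart.exists_cyl h hA
        refine ⟨encode (pre A n), ?_⟩
        show Mart.Ext (dl (encode (pre A n))) A ∧ ∀ B, Mart.Ext (dl (encode (pre A n))) B → B ∈ S
        rw [dl_encode]
        exact ⟨Ext_pre A n, hn⟩
      · rintro ⟨c, hc, h1⟩
        exact h1 A hc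
    rw [h1]
    refine sig_iUnion fun c => ?_
    by_cases h2 : ∀ B, Mart.Ext (dl c) B → B ∈ S
    · have h3 : {A : ℕ → Bool | Mart.Ext (dl c) A ∧ ∀ B, Mart.Ext (dl c) B → B ∈ S} =
          {A : ℕ → Bool | Mart.Ext (dl c) A} := by
        ext A
        exact ⟨fun h => h.1, fun h => ⟨h, h2⟩⟩
      rw [h3]
      exact sig_of_clopen (isOpen_Ext _) (isClosed_Ext _)
    · have h3 : {A : ℕ → Bool | Mart.Ext (dl c) A ∧ ∀ B, Mart.Ext (dl c) B → B ∈ S} = ∅ := by
        ext A
        exact ⟨fun h => h2 h.2, fun h => absurd h (Set.notMem_empty A)⟩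
      rw [h3]
      exact sig_of_clopen isOpen_empty isClosed_empty
  | succ n ih =>
    obtain ⟨T, hT, rfl⟩ := h
    exact ⟨T, fun i => ih (hT i), rfl⟩

/-- a condition on finitely many bits -/
theorem sig_pre {n : ℕ} {f : (ℕ → Bool) → (ℕ → Bool)} (h : ∀ i, Sig n {A | f A i = true})
    (σ : List Bool) : Sig (n + 1) {A | pre (f A) σ.length = σ} := by
  have hb : ∀ i (b : Bool), Sig (n + 1) {A | f A i = b} := by
    intro i b
    cases b with
    | true => exact sig_succ (h i)
    | false =>
      have h1 : {A : ℕ → Bool | f A i = false} = {A | f A i = true}ᶜ := by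
        ext A
        simp
      rw [h1]
      exact sig_compl (h i)
  have h2 : ∀ m, m ≤ σ.length → Sig (n + 1) {A | ∀ k < m, some (f A k) = σ[k]?} := by
    intro m
    induction m with
    | zero =>
      intro _
      have h3 : {A : ℕ → Bool | ∀ k < 0, some (f A k) = σ[k]?} = Set.univ := by
        ext A
        simp
      rw [h3]
      exact sig_of_clopen isOpen_univ isClosed_univ
    | succ m ih =>
      intro hm
      have h3 : {A : ℕ → Bool | ∀ k < m + 1, some (f A k) = σ[k]?} =
          {A : ℕ → Bool | ∀ k < m, some (f A k) = σ[k]?} ∩ {A | f A m = σ[m]} := by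
        ext A
        simp only [Set.mem_inter_iff, Set.mem_ofPred_eq]
        constructor
        · intro h4
          refine ⟨fun k hk => h4 k (by omega), ?_⟩
          have h5 := h4 m (Nat.lt_succ_self m)
          rw [List.getElem?_eq_getElem (by omega)] at h5
          exact Option.some.inj h5
        · rintro ⟨h4, h5⟩ k hk
          rcases Nat.lt_or_ge k m with h6 | h6
          · exact h4 k h6
          · have : k = m := by omega
            subst this
            rw [List.getElem?_eq_getElem (by omega), h5]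
      rw [h3]
      exact sig_inter (ih (by omega)) (hb _ _)
  have h3 : {A : ℕ → Bool | pre (f A) σ.length = σ} =
      {A | ∀ k < σ.length, some (f A k) = σ[k]?} := by
    ext A
    have h4 := Ext_iff σ (f A)
    constructor
    · intro h5 k hk
      exact (h4.1 h5 k hk).symm
    · intro h5
      exact h4.2 fun k hk => (h5 k hk).symm
  rw [h3]
  exact h2 _ le_rfl

/-- the bits of the `(n + 1)`-st jump of a continuous function -/
theorem sig_jmp {g : (ℕ → Bool) → (ℕ → Bool)} (hg : Continuous g) (n : ℕ) :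
    ∀ i, Sig n {A | jmp (n + 1) (g A) i = true} := by
  -- one jump
  have step : ∀ (m : ℕ) (f : (ℕ → Bool) → (ℕ → Bool)),
      (∀ σ : List Bool, Sig m {A | pre (f A) σ.length = σ}) →
      ∀ i, Sig m {A | jump (f A) i = true} := by
    intro m f hf i
    have h1 : {A : ℕ → Bool | jump (f A) i = true} =
        ⋃ s : ℕ, ⋃ c : ℕ, {A | pre (f A) (dl c).length = dl c ∧ (dl c).length = s.unpair.1 ∧
          evN (Nat.pair (Nat.pair s.unpair.2 i.unpair.1)
            (Nat.pair (encode (dl c)) i.unpair.2)) ≠ 0} := by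
      ext A
      simp only [Set.mem_iUnion, Set.mem_ofPred_eq]
      rw [jump_iff]
      constructor
      · rintro ⟨s, hs⟩
        refine ⟨s, encode (pre (f A) s.unpair.1), ?_⟩
        rw [dl_encode, pre_length]
        exact ⟨rfl, rfl, hs⟩
      · rintro ⟨s, c, h1, h2, h3⟩
        refine ⟨s, ?_⟩
        unfold res
        rw [← h2, h1]
        exact h3
    rw [h1]
    refine sig_iUnion fun s => sig_iUnion fun c => ?_
    by_cases h2 : (dl c).length = s.unpair.1 ∧
        evN (Nat.pair (Nat.pair s.unpair.2 i.unpair.1)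
            (Nat.pair (encode (dl c)) i.unpair.2)) ≠ 0
    · have h3 : {A : ℕ → Bool | pre (f A) (dl c).length = dl c ∧ (dl c).length = s.unpair.1 ∧
          evN (Nat.pair (Nat.pair s.unpair.2 i.unpair.1)
            (Nat.pair (encode (dl c)) i.unpair.2)) ≠ 0} =
          {A | pre (f A) (dl c).length = dl c} := by
        ext A
        exact ⟨fun h => h.1, fun h => ⟨h, h2⟩⟩
      rw [h3]
      exact hf _
    · have h3 : {A : ℕ → Bool | pre (f A) (dl c).length = dl c ∧ (dl c).length = s.unpair.1 ∧
          evN (Nat.pair (Nat.pair s.unpair.2 i.unpair.1)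
            (Nat.pair (encode (dl c)) i.unpair.2)) ≠ 0} = ∅ := by
        ext A
        exact ⟨fun h => h2 h.2, fun h => absurd h (Set.notMem_empty A)⟩
      rw [h3]
      exact sig_of_clopen isOpen_empty isClosed_empty
  induction n with
  | zero =>
    intro i
    have h1 : ∀ A, jmp (0 + 1) (g A) = jump (g A) := fun A => by
      rw [jmp_succ, jmp_zero]
    simp only [h1]
    refine step 0 g (fun σ => ?_) i
    exact (isOpen_Ext σ).preimage hg
  | succ n ih =>
    intro i
    have h1 : ∀ A, jmp (n + 1 + 1) (g A) = jump (jmp (n + 1) (g A)) := fun A => jmp_succ _ _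
    simp only [h1]
    exact step (n + 1) (fun A => jmp (n + 1) (g A)) (sig_pre ih) i

end Pool.Agent.MSix
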