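import Pool.Agent.Lib.MJump.Branch
import Pool.Agent.Lib.UDet.Split

/-!
# Strings with flags

A real is written in pairs of bits.  A pair `(false, b)` carries the free bit `b`; the pairs
`(true, true), .., (true, true), (true, false)` carry a number in unary.
-/

set_option autoImplicit false

namespace Pool.Agent.MSix

open Pool.Agent.GammaZero Pool.Agent.Mart Encodable

/-- free bits with the flag `false` -/
def fl : List Bool → List Bool
  | [] => []
  | b :: β => false :: b :: fl β

/-- the number `m` in unary, with the flag `true` -/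
def rp : ℕ → List Bool
  | 0 => [true, false]
  | m + 1 => true :: true :: rp m

theorem fl_length (β : List Bool) : (fl β).length = 2 * β.length := by
  induction β with
  | nil => rfl
  | cons b β ih =>
    show (fl β).length + 1 + 1 = 2 * (β.length + 1)
    rw [ih]; ring

theorem fl_append (β γ : List Bool) : fl (β ++ γ) = fl β ++ fl γ := by
  induction β with
  | nil => rfl
  | cons b β ih =>
    show false :: b :: fl (β ++ γ) = false :: b :: (fl β ++ fl γ)
    rw [ih]

theorem fl_prefix {β γ : List Bool} (h : β <+: γ) : fl β <+: fl γ := by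
  obtain ⟨ρ, rfl⟩ := h
  rw [fl_append]
  exact List.prefix_append _ _

theorem app_fl_prefix {β γ : List Bool} (σ : List Bool) (h : β <+: γ) :
    σ ++ fl β <+: σ ++ fl γ := by
  obtain ⟨ρ, hρ⟩ := fl_prefix h
  exact ⟨ρ, by rw [List.append_assoc, hρ]⟩

theorem fl_even : ∀ (β : List Bool) (k : ℕ), k < β.length → (fl β)[2 * k]? = some false := by
  intro β
  induction β with
  | nil => intro k hk; simp at hk
  | cons b β ih =>
    intro k hk
    cases k with
    | zero => rfl
    | succ k =>
      show (false :: b :: fl β)[2 * k + 1 + 1]? = _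
      rw [List.getElem?_cons_succ, List.getElem?_cons_succ]
      refine ih k ?_
      simp only [List.length_cons] at hk
      omega

theorem fl_odd : ∀ (β : List Bool) (k : ℕ), (fl β)[2 * k + 1]? = β[k]? := by
  intro β
  induction β with
  | nil => intro k; rfl
  | cons b β ih =>
    intro k
    cases k with
    | zero => rfl
    | succ k =>
      show (false :: b :: fl β)[2 * k + 1 + 1 + 1]? = _
      rw [List.getElem?_cons_succ, List.getElem?_cons_succ, ih k, List.getElem?_cons_succ]

theorem rp_length (m : ℕ) : (rp m).length = 2 * (m + 1) := by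
  induction m with
  | zero => rfl
  | succ m ih =>
    show (rp m).length + 1 + 1 = _
    rw [ih]; ring

theorem rp_even : ∀ (m k : ℕ), k ≤ m → (rp m)[2 * k]? = some true := by
  intro m
  induction m with
  | zero =>
    intro k hk
    have : k = 0 := by omega
    subst this
    rfl
  | succ m ih =>
    intro k hk
    cases k with
    | zero => rfl
    | succ k =>
      show (true :: true :: rp m)[2 * k + 1 + 1]? = _
      rw [List.getElem?_cons_succ, List.getElem?_cons_succ]
      exact ih k (by omega)

theorem rp_odd : ∀ (m k : ℕ), k < m → (rp m)[2 * k + 1]? = some true := by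
  intro m
  induction m with
  | zero => intro k hk; omega
  | succ m ih =>
    intro k hk
    cases k with
    | zero => rfl
    | succ k =>
      show (true :: true :: rp m)[2 * k + 1 + 1 + 1]? = _
      rw [List.getElem?_cons_succ, List.getElem?_cons_succ]
      exact ih k (by omega)

theorem rp_last : ∀ m : ℕ, (rp m)[2 * m + 1]? = some false := by
  intro m
  induction m with
  | zero => rfl
  | succ m ih =>
    show (true :: true :: rp m)[2 * m + 1 + 1 + 1]? = _
    rw [List.getElem?_cons_succ, List.getElem?_cons_succ]
    exact ih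

/-! ### the reals `σ ⌢ fl γ` -/

/-- the real which starts with `σ` and goes on with the free bits `γ` -/
def tl (σ : List Bool) (γ : ℕ → Bool) : ℕ → Bool :=
  patch σ (fun n => if (n - σ.length) % 2 = 0 then false else γ ((n - σ.length) / 2))

theorem Ext_tl {σ g : List Bool} {γ : ℕ → Bool} (h : Ext g γ) : Ext (σ ++ fl g) (tl σ γ) := by
  rw [Ext_iff] at h ⊢
  intro k hk
  rcases Nat.lt_or_ge k σ.length with h1 | h1
  · rw [List.getElem?_append_left h1]
    unfold tl
    rw [patch_lt h1, List.getElem?_eq_getElem h1]
  · rw [List.getElem?_append_right h1]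
    unfold tl
    rw [patch_ge h1]
    rw [List.length_append, fl_length] at hk
    rcases Nat.even_or_odd' (k - σ.length) with ⟨j, hj | hj⟩
    · rw [hj, fl_even g j (by omega), if_pos (by omega)]
    · rw [hj, fl_odd g j, if_neg (by omega), h j (by omega)]
      congr 2
      omega

theorem tl_inj {σ : List Bool} {γ γ' : ℕ → Bool} (h : tl σ γ = tl σ γ') : γ = γ' := by
  funext k
  have h1 := congrFun h (σ.length + (2 * k + 1))
  unfold tl at h1
  rw [patch_ge (Nat.le_add_right _ _), patch_ge (Nat.le_add_right _ _), Nat.add_sub_cancel_left,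
    if_neg (by omega), if_neg (by omega)] at h1
  have h2 : (2 * k + 1) / 2 = k := by omega
  rw [h2] at h1
  exact h1

theorem tl_patch {σ σ' : List Bool} (h : σ.length = σ'.length) (γ : ℕ → Bool) :
    tl σ' γ = patch σ' (tl σ γ) := by
  funext n
  rcases Nat.lt_or_ge n σ'.length with h1 | h1
  · rw [patch_lt h1]
    unfold tl
    rw [patch_lt h1]
  · rw [patch_ge h1]
    unfold tl
    rw [patch_ge h1, patch_ge (by omega), h]

theorem tl_close {F : (ℕ → Bool) → (ℕ → Bool)} (hc : Continuous F) (σ : List Bool)
    (γ : ℕ → Bool) (K : ℕ) : ∃ l, ∀ l', l ≤ l' → ∀ X, Ext (σ ++ fl (pre γ l')) X → ∀ k < K,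
      F X k = F (tl σ γ) k := by
  obtain ⟨L, hL⟩ := cont_pre hc (tl σ γ) K
  refine ⟨L, fun l' hl' X hX k hk => hL X ?_ k hk⟩
  refine Ext_mono ?_ hX
  have h1 : Ext (σ ++ fl (pre γ l')) (tl σ γ) := Ext_tl (Ext_pre γ l')
  have h2 : (σ ++ fl (pre γ l')).length = σ.length + 2 * l' := by
    rw [List.length_append, fl_length, pre_length]
  unfold Mart.Ext at h1
  rw [← h1, h2]
  exact pre_prefix _ (by omega)

theorem U_ext {x y : ℕ → Bool} {e k t v : ℕ} (h : ∀ j < t, x j = y j) :
    U x e k t v ↔ U y e k t v := by
  constructor
  · intro hU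
    refine UDet.U_congr ?_ hU
    rw [Ext_iff_pre]
    exact fun j hj => (h j hj).symm
  · intro hU
    refine UDet.U_congr ?_ hU
    rw [Ext_iff_pre]
    exact fun j hj => h j hj

end Pool.Agent.MSix
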