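import Pool.Agent.Lib.MSix.Str

/-!
# Valid indices, departures, identification
-/

set_option autoImplicit false

namespace Pool.Agent.MSix

open Pool.Agent.GammaZero Pool.Agent.Mart Encodable

variable (F : (ℕ → Bool) → (ℕ → Bool))

/-- after `s` and `s'` the program `e` computes the first `M` bits of the second value from the
first one -/
def Fol (s s' : List Bool) (e M N : ℕ) : Prop :=
  ∀ X Y, Mart.Ext s X → Mart.Ext s' Y → ∀ k < M, U (F X) e k N (F Y k).toNat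

/-- validity, first half -/
def V1 (σ σ' g : List Bool) (e : ℕ) : Prop :=
  ∀ M g₁, g <+: g₁ → ∃ g₂ N, g₁ <+: g₂ ∧ Fol F (σ ++ fl g₂) (σ' ++ fl g₂) e M N

/-- validity, second half: the smaller programs fail below `M₀` -/
def V2 (σ σ' g : List Bool) (e M₀ : ℕ) : Prop :=
  ∀ e' < e, ∃ k < M₀, ∀ γ, Mart.Ext g γ → ∀ t, ¬ U (F (tl σ γ)) e' k t (F (tl σ' γ) k).toNat

/-- the second value departs at `u` from the one computed by `e` -/
def Dp (s s' : List Bool) (e u : ℕ) : Prop :=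
  ∀ X Y, Mart.Ext s X → Mart.Ext s' Y → ∃ t, (∀ k < u, U (F X) e k t (F Y k).toNat) ∧
    ∃ b < 2, b ≠ (F Y u).toNat ∧ U (F X) e u t b

/-- the index `e` is identified by `M, N` -/
def Idd (s s' : List Bool) (M N e : ℕ) : Prop :=
  ∀ X Y, Mart.Ext s X → Mart.Ext s' Y → Id1 (F X) M N (F Y) e

variable {F}

theorem Fol.mono {s s' r r' : List Bool} {e M N : ℕ} (h : Fol F s s' e M N) (h1 : s <+: r)
    (h2 : s' <+: r') : Fol F r r' e M N :=
  fun X Y hX hY => h X Y (Ext_mono h1 hX) (Ext_mono h2 hY)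

theorem Dp.mono {s s' r r' : List Bool} {e u : ℕ} (h : Dp F s s' e u) (h1 : s <+: r)
    (h2 : s' <+: r') : Dp F r r' e u :=
  fun X Y hX hY => h X Y (Ext_mono h1 hX) (Ext_mono h2 hY)

theorem Idd.mono {s s' r r' : List Bool} {M N e : ℕ} (h : Idd F s s' M N e) (h1 : s <+: r)
    (h2 : s' <+: r') : Idd F r r' M N e :=
  fun X Y hX hY => h X Y (Ext_mono h1 hX) (Ext_mono h2 hY)

theorem V1.mono {σ σ' g g' : List Bool} {e : ℕ} (h : V1 F σ σ' g e) (hg : g <+: g') :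
    V1 F σ σ' g' e :=
  fun M g₁ h1 => h M g₁ (hg.trans h1)

theorem V2.mono {σ σ' g g' : List Bool} {e M₀ : ℕ} (h : V2 F σ σ' g e M₀) (hg : g <+: g') :
    V2 F σ σ' g' e M₀ := by
  intro e' he'
  obtain ⟨k, hk, h1⟩ := h e' he'
  exact ⟨k, hk, fun γ hγ => h1 γ (Ext_mono hg hγ)⟩

theorem fol_one (hc : Continuous F) {σ σ' : List Bool} {γ : ℕ → Bool} {e k t : ℕ}
    (h : U (F (tl σ γ)) e k t (F (tl σ' γ) k).toNat) : ∃ L, ∀ l, L ≤ l → ∀ X Y,
      Mart.Ext (σ ++ fl (pre γ l)) X → Mart.Ext (σ' ++ fl (pre γ l)) Y →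
        U (F X) e k t (F Y k).toNat := by
  obtain ⟨L1, h1⟩ := tl_close hc σ γ t
  obtain ⟨L2, h2⟩ := tl_close hc σ' γ (k + 1)
  refine ⟨max L1 L2, fun l hl X Y hX hY => ?_⟩
  rw [h2 l (le_trans (le_max_right _ _) hl) Y hY k (Nat.lt_succ_self k)]
  exact (U_ext (h1 l (le_trans (le_max_left _ _) hl) X hX)).2 h

theorem fol_idx (hc : Continuous F) {σ σ' : List Bool} {γ : ℕ → Bool} {e : ℕ}
    (h : Idx (F (tl σ γ)) e (F (tl σ' γ))) (M l₀ : ℕ) : ∃ l N, l₀ ≤ l ∧
      Fol F (σ ++ fl (pre γ l)) (σ' ++ fl (pre γ l)) e M N := by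
  induction M with
  | zero => exact ⟨l₀, 0, le_rfl, fun X Y _ _ k hk => absurd hk (Nat.not_lt_zero k)⟩
  | succ M ih =>
    obtain ⟨l, N, hl, hF⟩ := ih
    obtain ⟨t, ht⟩ := h M
    obtain ⟨L, hL⟩ := fol_one hc ht
    refine ⟨max l L, max N t, hl.trans (le_max_left _ _), fun X Y hX hY k hk => ?_⟩
    have hp : pre γ l <+: pre γ (max l L) := pre_prefix γ (le_max_left _ _)
    rcases Nat.lt_or_ge k M with h1 | h1
    · exact (hF X Y (Ext_mono (app_fl_prefix σ hp) hX) (Ext_mono (app_fl_prefix σ' hp) hY) k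
        h1).mono (le_max_left _ _)
    · have : k = M := by omega
      subst this
      exact (hL _ (le_max_right _ _) X Y hX hY).mono (le_max_right _ _)

theorem exists_V1 (hc : Continuous F) (hE : ∀ (σ : List Bool) (G : ℕ → Bool),
    TR (F (patch σ G)) (F G)) {σ σ' : List Bool} (hl : σ.length = σ'.length) (g : List Bool) :
    ∃ e g', g <+: g' ∧ V1 F σ σ' g' e := by
  by_contra hcon
  have h0 : ∀ (e : ℕ) (g' : List Bool), ∃ g₁, g' <+: g₁ ∧ g'.length < g₁.length ∧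
      (g <+: g' → ∃ M, ∀ g₂, g₁ <+: g₂ → ∀ N, ¬ Fol F (σ ++ fl g₂) (σ' ++ fl g₂) e M N) := by
    intro e g'
    by_cases hg : g <+: g'
    · have h1 : ¬ V1 F σ σ' g' e := fun h => hcon ⟨e, g', hg, h⟩
      unfold V1 at h1
      push Not at h1
      obtain ⟨M, g₁, h2, h3⟩ := h1
      refine ⟨g₁ ++ [false], h2.trans (List.prefix_append _ _), ?_, fun _ => ⟨M, fun g₂ hg₂ N => ?_⟩⟩
      · have := h2.length_le
        rw [List.length_append]
        simp only [List.length_cons, List.length_nil]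
        omega
      · exact h3 g₂ N ((List.prefix_append _ _).trans hg₂)
    · refine ⟨g' ++ [false], List.prefix_append _ _, ?_, fun h => absurd h hg⟩
      rw [List.length_append]
      simp only [List.length_cons, List.length_nil]
      omega
  choose T hT1 hT2 hT3 using h0
  let s : ℕ → List Bool := fun n => Nat.rec g (fun e ih => T e ih) n
  have hs : ∀ n, s (n + 1) = T n (s n) := fun _ => rfl
  have hg : ∀ n, g <+: s n := by
    intro n
    induction n with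
    | zero => exact List.prefix_refl g
    | succ n ih => rw [hs]; exact ih.trans (hT1 n (s n))
  have hE1 : ∀ n, Mart.Ext (s n) (lim s) :=
    Ext_lim s (fun n => by rw [hs]; exact hT1 n (s n)) (fun n => by rw [hs]; exact hT2 n (s n))
  have h1 : TR (F (tl σ' (lim s))) (F (tl σ (lim s))) := by
    rw [tl_patch hl]
    exact hE _ _
  obtain ⟨e, he⟩ := exists_idx h1
  obtain ⟨M, hM⟩ := hT3 e (s e) (hg e)
  obtain ⟨l, N, hl1, hF⟩ := fol_idx hc he M (s (e + 1)).length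
  exact hM (pre (lim s) l) (prefix_pre (hE1 (e + 1)) hl1) N hF

theorem exists_bad (hc : Continuous F) {σ σ' g : List Bool} {e : ℕ} (h : ¬ V1 F σ σ' g e) :
    ∃ g₁ k, g <+: g₁ ∧ ∀ γ, Mart.Ext g₁ γ → ∀ t,
      ¬ U (F (tl σ γ)) e k t (F (tl σ' γ) k).toNat := by
  by_contra hcon
  apply h
  intro M g₁ hg₁
  induction M with
  | zero =>
    exact ⟨g₁, 0, List.prefix_refl _, fun X Y _ _ k hk => absurd hk (Nat.not_lt_zero k)⟩
  | succ M ih =>
    obtain ⟨g₂, N, h1, h2⟩ := ih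
    obtain ⟨γ, hγ, t, ht⟩ : ∃ γ, Mart.Ext g₂ γ ∧ ∃ t,
        U (F (tl σ γ)) e M t (F (tl σ' γ) M).toNat := by
      by_contra h3
      exact hcon ⟨g₂, M, hg₁.trans h1, fun γ hγ t ht => h3 ⟨γ, hγ, t, ht⟩⟩
    obtain ⟨L, hL⟩ := fol_one hc ht
    have hp : g₂ <+: pre γ (max L g₂.length) := prefix_pre hγ (le_max_right _ _)
    refine ⟨pre γ (max L g₂.length), max N t, h1.trans hp, fun X Y hX hY k hk => ?_⟩
    rcases Nat.lt_or_ge k M with h4 | h4
    · exact (h2 X Y (Ext_mono (app_fl_prefix σ hp) hX) (Ext_mono (app_fl_prefix σ' hp) hY) k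
        h4).mono (le_max_left _ _)
    · have : k = M := by omega
      subst this
      exact (hL _ (le_max_left _ _) X Y hX hY).mono (le_max_right _ _)

/-- valid indices exist -/
theorem valid_exists (hc : Continuous F) (hE : ∀ (σ : List Bool) (G : ℕ → Bool),
    TR (F (patch σ G)) (F G)) {σ σ' : List Bool} (hl : σ.length = σ'.length) (g : List Bool) :
    ∃ g' e M₀, g <+: g' ∧ V1 F σ σ' g' e ∧ V2 F σ σ' g' e M₀ := by
  classical
  have hex := exists_V1 hc hE hl g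
  obtain ⟨g', hg', hV⟩ := Nat.find_spec hex
  have hmin : ∀ e' < Nat.find hex, ∀ g'', g' <+: g'' → ¬ V1 F σ σ' g'' e' :=
    fun e' he' g'' h1 h2 => Nat.find_min hex he' ⟨g'', hg'.trans h1, h2⟩
  have key : ∀ n, n ≤ Nat.find hex → ∃ g₁ M₀, g' <+: g₁ ∧ V2 F σ σ' g₁ n M₀ := by
    intro n
    induction n with
    | zero => exact fun _ => ⟨g', 0, List.prefix_refl _, fun e' he' => absurd he' (Nat.not_lt_zero _)⟩
    | succ n ih =>
      intro hn
      obtain ⟨g₁, M₀, h1, h2⟩ := ih (by omega)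
      obtain ⟨g₂, k, h3, h4⟩ := exists_bad hc (hmin n (by omega) g₁ h1)
      refine ⟨g₂, max M₀ (k + 1), h1.trans h3, fun e' he' => ?_⟩
      rcases Nat.lt_or_ge e' n with h5 | h5
      · obtain ⟨k', hk', h6⟩ := h2 e' h5
        exact ⟨k', lt_of_lt_of_le hk' (le_max_left _ _), fun γ hγ => h6 γ (Ext_mono h3 hγ)⟩
      · have : e' = n := by omega
        subst this
        exact ⟨k, lt_of_lt_of_le (Nat.lt_succ_self k) (le_max_right _ _), h4⟩
  obtain ⟨g₁, M₀, h1, h2⟩ := key _ le_rfl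
  exact ⟨g₁, Nat.find hex, M₀, hg'.trans h1, hV.mono h1, h2⟩

/-- a departure at a large level -/
theorem depart6 (hc : Continuous F) (hi : Function.Injective F) {σ σ' g : List Bool} {e : ℕ}
    (hV : V1 F σ σ' g e) (K : ℕ) : ∃ h w u, g <+: h ∧ g <+: w ∧ h.length = w.length ∧ K ≤ u ∧
      Dp F (σ ++ fl h) (σ' ++ fl w) e u := by
  classical
  obtain ⟨L, hL⟩ := tl_close hc σ' (ext g) K
  obtain ⟨l, hl1, hl2⟩ : ∃ l, L ≤ l ∧ g.length ≤ l := ⟨max L g.length, le_max_left _ _,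
    le_max_right _ _⟩
  have hgl : g <+: pre (ext g) l := prefix_pre (Ext_ext g) hl2
  have ha0 : ∀ b : Bool, Mart.Ext (pre (ext g) l) (ext (pre (ext g) l ++ [b])) :=
    fun b => Ext_mono (List.prefix_append _ _) (Ext_ext _)
  have hab : ext (pre (ext g) l ++ [false]) ≠ ext (pre (ext g) l ++ [true]) := by
    intro h
    have h1 := congrFun h l
    unfold ext at h1
    rw [List.getElem?_append_right (by rw [pre_length]),
      List.getElem?_append_right (by rw [pre_length]), pre_length] at h1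
    simp at h1
  have hne : ∃ u, F (tl σ' (ext (pre (ext g) l ++ [false]))) u ≠
      F (tl σ' (ext (pre (ext g) l ++ [true]))) u := by
    by_contra hcon
    push Not at hcon
    exact hab (tl_inj (hi (funext hcon)))
  obtain ⟨u, hu1, hu2⟩ : ∃ u, F (tl σ' (ext (pre (ext g) l ++ [false]))) u ≠
      F (tl σ' (ext (pre (ext g) l ++ [true]))) u ∧ ∀ k < u,
        F (tl σ' (ext (pre (ext g) l ++ [false]))) k =
          F (tl σ' (ext (pre (ext g) l ++ [true]))) k :=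
    ⟨Nat.find hne, Nat.find_spec hne, fun k hk => not_not.1 (Nat.find_min hne hk)⟩
  have hK : K ≤ u := by
    by_contra hcon
    apply hu1
    have h1 := hL l hl1 _ (Ext_tl (σ := σ') (ha0 false)) u (by omega)
    have h2 := hL l hl1 _ (Ext_tl (σ := σ') (ha0 true)) u (by omega)
    rw [h1, h2]
  obtain ⟨La, hLa⟩ := tl_close hc σ' (ext (pre (ext g) l ++ [false])) (u + 1)
  obtain ⟨Lb, hLb⟩ := tl_close hc σ' (ext (pre (ext g) l ++ [true])) (u + 1)
  obtain ⟨l2, h21, h22, h23⟩ : ∃ l2, La ≤ l2 ∧ Lb ≤ l2 ∧ l ≤ l2 :=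
    ⟨max (max La Lb) l, (le_max_left _ _).trans (le_max_left _ _),
      (le_max_right _ _).trans (le_max_left _ _), le_max_right _ _⟩
  have hp : ∀ b, g <+: pre (ext (pre (ext g) l ++ [b])) l2 := by
    intro b
    refine hgl.trans (prefix_pre (ha0 b) ?_)
    rw [pre_length]
    exact h23
  obtain ⟨h, N, hh, hF⟩ := hV (u + 1) _ (hp false)
  obtain ⟨ρ, hρ⟩ := hh
  refine ⟨h, pre (ext (pre (ext g) l ++ [true])) l2 ++ ρ, u, ?_, ?_, ?_, hK, ?_⟩
  · rw [← hρ]
    exact (hp false).trans (List.prefix_append _ _)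
  · exact (hp true).trans (List.prefix_append _ _)
  · rw [← hρ, List.length_append, List.length_append, pre_length, pre_length]
  · intro X Y hX hY
    have hY1 : ∀ k < u + 1, F Y k = F (tl σ' (ext (pre (ext g) l ++ [true]))) k :=
      hLb l2 h22 Y (Ext_mono (app_fl_prefix σ' (List.prefix_append _ _)) hY)
    have hY2 : ∀ k < u + 1, F (ext (σ' ++ fl h)) k =
        F (tl σ' (ext (pre (ext g) l ++ [false]))) k := by
      refine hLa l2 h21 _ (Ext_mono (app_fl_prefix σ' ?_) (Ext_ext _))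
      rw [← hρ]
      exact List.prefix_append _ _
    have h3 := hF X (ext (σ' ++ fl h)) hX (Ext_ext _)
    refine ⟨N, fun k hk => ?_, (F (tl σ' (ext (pre (ext g) l ++ [false]))) u).toNat, ?_, ?_, ?_⟩
    · have h4 := h3 k (by omega)
      rw [hY2 k (by omega), hu2 k hk, ← hY1 k (by omega)] at h4
      exact h4
    · cases F (tl σ' (ext (pre (ext g) l ++ [false]))) u <;> decide
    · intro h5
      rw [hY1 u (Nat.lt_succ_self u)] at h5
      exact hu1 (toNat_inj h5)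
    · have h4 := h3 u (Nat.lt_succ_self u)
      rw [hY2 u (Nat.lt_succ_self u)] at h4
      exact h4

/-- identification of a valid index -/
theorem idd_exists (hc : Continuous F) {σ σ' g : List Bool} {e M₀ u v N : ℕ}
    (hV : V2 F σ σ' g e M₀) (hu : M₀ ≤ u) (hN : N ≤ v)
    (hF : Fol F (σ ++ fl g) (σ' ++ fl g) e u N) :
    ∃ g₁, g <+: g₁ ∧ Idd F (σ ++ fl g₁) (σ' ++ fl g₁) u v e := by
  obtain ⟨L1, h1⟩ := tl_close hc σ (ext g) v
  obtain ⟨L2, h2⟩ := tl_close hc σ' (ext g) u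
  obtain ⟨l, hl1, hl2, hl3⟩ : ∃ l, L1 ≤ l ∧ L2 ≤ l ∧ g.length ≤ l :=
    ⟨max (max L1 L2) g.length, (le_max_left _ _).trans (le_max_left _ _),
      (le_max_right _ _).trans (le_max_left _ _), le_max_right _ _⟩
  have hp : g <+: pre (ext g) l := prefix_pre (Ext_ext g) hl3
  refine ⟨pre (ext g) l, hp, fun X Y hX hY => ⟨fun k hk => ?_, fun e' he' hcon => ?_⟩⟩
  · exact (hF X Y (Ext_mono (app_fl_prefix σ hp) hX) (Ext_mono (app_fl_prefix σ' hp) hY) k
      hk).mono hN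
  · obtain ⟨k, hk, h3⟩ := hV e' he'
    have h4 := hcon k (lt_of_lt_of_le hk hu)
    rw [h2 l hl2 Y hY k (lt_of_lt_of_le hk hu)] at h4
    exact h3 (ext g) (Ext_ext g) v ((U_ext (h1 l hl1 X hX)).1 h4)

/-- two departures of the active group, and the identification of the two indices of the other -/
theorem two_dep (hc : Continuous F) (hi : Function.Injective F) {σ σ1 σ2 g : List Bool}
    {e1 e2 : ℕ} (h1 : V1 F σ σ1 g e1) (h2 : V1 F σ σ2 g e2) {τ τ1 τ2 γ : List Bool}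
    {f1 f2 m1 m2 : ℕ} (k1 : V1 F τ τ1 γ f1) (k1' : V2 F τ τ1 γ f1 m1) (k2 : V1 F τ τ2 γ f2)
    (k2' : V2 F τ τ2 γ f2 m2) : ∃ β β1 β2 γ' u v, u < v ∧ g <+: β ∧ g <+: β1 ∧ g <+: β2 ∧
      β1.length = β.length ∧ β2.length = β.length ∧ γ <+: γ' ∧
      Dp F (σ ++ fl β) (σ1 ++ fl β1) e1 u ∧ Dp F (σ ++ fl β) (σ2 ++ fl β2) e2 v ∧
      Idd F (τ ++ fl γ') (τ1 ++ fl γ') u v f1 ∧ Idd F (τ ++ fl γ') (τ2 ++ fl γ') u v f2 := by
  obtain ⟨h, w, u, a1, a2, a3, a4, a5⟩ := depart6 hc hi h1 (max m1 m2)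
  obtain ⟨γ1, N1, b1, b2⟩ := k1 u γ (List.prefix_refl γ)
  obtain ⟨γ2, N2, c1, c2⟩ := k2 u γ1 b1
  obtain ⟨h', w', v, d1, d2, d3, d4, d5⟩ := depart6 hc hi (h2.mono a1)
    (max (max N1 N2) (u + 1))
  obtain ⟨γ3, p1, p2⟩ := idd_exists hc (k1'.mono (b1.trans c1))
    ((le_max_left _ _).trans a4) ((le_max_left _ _).trans ((le_max_left _ _).trans d4))
    (b2.mono (app_fl_prefix τ c1) (app_fl_prefix τ1 c1))
  obtain ⟨γ4, q1, q2⟩ := idd_exists hc (k2'.mono ((b1.trans c1).trans p1))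
    ((le_max_right _ _).trans a4) ((le_max_right _ _).trans ((le_max_left _ _).trans d4))
    (c2.mono (app_fl_prefix τ p1) (app_fl_prefix τ2 p1))
  obtain ⟨ρ, hρ⟩ := d1
  have hhh : h <+: h' := ⟨ρ, hρ⟩
  refine ⟨h', w ++ ρ, w', γ4, u, v, ?_, a1.trans hhh, a2.trans (List.prefix_append _ _),
    a1.trans d2, ?_, d3.symm, ((b1.trans c1).trans p1).trans q1, ?_, d5, ?_, q2⟩
  · exact lt_of_lt_of_le (Nat.lt_succ_self u) ((le_max_right _ _).trans d4)
  · rw [← hρ, List.length_append, List.length_append, a3]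
  · exact a5.mono (app_fl_prefix σ hhh) (app_fl_prefix σ1 (List.prefix_append _ _))
  · exact p2.mono (app_fl_prefix τ q1) (app_fl_prefix τ1 q1)

/-- an event with prescribed order of the two departures -/
theorem event (hc : Continuous F) (hi : Function.Injective F) {σ σ1 σ2 g : List Bool}
    {e1 e2 : ℕ} (h1 : V1 F σ σ1 g e1) (h2 : V1 F σ σ2 g e2) {τ τ1 τ2 γ : List Bool}
    {f1 f2 m1 m2 : ℕ} (k1 : V1 F τ τ1 γ f1) (k1' : V2 F τ τ1 γ f1 m1) (k2 : V1 F τ τ2 γ f2)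
    (k2' : V2 F τ τ2 γ f2 m2) (z : Bool) : ∃ β β1 β2 γ' u v, z = decide (u < v) ∧ g <+: β ∧
      g <+: β1 ∧ g <+: β2 ∧ β1.length = β.length ∧ β2.length = β.length ∧ γ <+: γ' ∧
      Dp F (σ ++ fl β) (σ1 ++ fl β1) e1 u ∧ Dp F (σ ++ fl β) (σ2 ++ fl β2) e2 v ∧
      Idd F (τ ++ fl γ') (τ1 ++ fl γ') (min u v) (max u v) f1 ∧
      Idd F (τ ++ fl γ') (τ2 ++ fl γ') (min u v) (max u v) f2 := by
  cases z with
  | true =>
    obtain ⟨β, β1, β2, γ', u, v, a1, a2, a3, a4, a5, a6, a7, a8, a9, a10, a11⟩ :=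
      two_dep hc hi h1 h2 k1 k1' k2 k2'
    refine ⟨β, β1, β2, γ', u, v, (decide_eq_true a1).symm, a2, a3, a4, a5, a6, a7, a8, a9, ?_, ?_⟩
    · rw [min_eq_left a1.le, max_eq_right a1.le]; exact a10
    · rw [min_eq_left a1.le, max_eq_right a1.le]; exact a11
  | false =>
    obtain ⟨β, β1, β2, γ', u, v, a1, a2, a3, a4, a5, a6, a7, a8, a9, a10, a11⟩ :=
      two_dep hc hi h2 h1 k1 k1' k2 k2'
    refine ⟨β, β2, β1, γ', v, u, (decide_eq_false (by omega)).symm, a2, a4, a3, a6, a5, a7, a9, a8,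
      ?_, ?_⟩
    · rw [min_eq_right a1.le, max_eq_left a1.le]; exact a10
    · rw [min_eq_right a1.le, max_eq_left a1.le]; exact a11

end Pool.Agent.MSix
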